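import Pool.Agent.H57.BRA.BQb

/-!
# [H71 FC BQL] (F) of MP_b39724, W7: a class of `V ≤ Gal(Ω/K)` killed by the kernel of a Kummer character is a cup product (complete)

`X` a 2-cocycle of finite level, `V` a subgroup of `Gal(Ω/K)` with an element `s`, `kk c s = 1`, `X` a coboundary on `V ∩ ker (kk c)`.
Then `X + kk c ∪ ψ` is a coboundary on `V` for a character `ψ` of `V` of finite level. (The proof of `H57.BRA.bq` with `V` in place of the whole group: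
`ψ` is the Kummer character of an element of the fixed field of `V`.)
-/

set_option autoImplicit false

open scoped NumberField Pointwise
open IsDedekindDomain

noncomputable section

namespace H71.FC

open H63.MA H57.BRA

section

variable {p : ℕ} {R : Type} [Group R] {e : R → R → ZMod p} {he : Coc p e}

private theorem bql_mul (x y : Xt e he) : x * y = ⟨x.r * y.r, x.z + y.z + e x.r y.r⟩ := rfl

private def bqlC (e : R → R → ZMod p) (he : Coc p e) (a : ZMod p) : Xt e he := ⟨1, a⟩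

private theorem bqlC_mul (a : ZMod p) (x : Xt e he) : bqlC e he a * x = x * bqlC e he a := by
  rw [bql_mul, bql_mul]
  show (⟨1 * x.r, a + x.z + e 1 x.r⟩ : Xt e he) = ⟨x.r * 1, x.z + a + e x.r 1⟩
  rw [he.l1, he.r1, one_mul, mul_one, add_comm a]

private theorem bqlC_add (a b : ZMod p) :
    bqlC e he a * bqlC e he b = bqlC e he (a + b) := by
  rw [bql_mul]
  show (⟨1 * 1, a + b + e 1 1⟩ : Xt e he) = ⟨1, a + b⟩
  rw [he.l1, one_mul, add_zero]

private theorem bqlC_z (x : Xt e he) (a : ZMod p) : (x * bqlC e he a).z = x.z + a := by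
  show x.z + a + e x.r 1 = x.z + a
  rw [he.r1, add_zero]

private theorem bqlC_zero : bqlC e he 0 = 1 := rfl

private theorem bql_pow_r (x : Xt e he) (k : ℕ) : (x ^ k).r = x.r ^ k := by
  induction k with
  | zero => rw [pow_zero, pow_zero]; rfl
  | succ k ih => rw [pow_succ, pow_succ, bql_mul, ih]

variable (e he) in
/-- the lift of `γ` by `l` -/
private def bqlL (l : R → ZMod p) (γ : R) : Xt e he := ⟨γ, l γ⟩

/-- the defect of the conjugation with `s` -/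
private def bqlE (e : R → R → ZMod p) (l : R → ZMod p) (s γ : R) : ZMod p :=
  l γ + e γ s - l (s⁻¹ * γ * s) - e s (s⁻¹ * γ * s)

private theorem bql_key (l : R → ZMod p) (s γ : R) :
    bqlL e he l γ * (⟨s, 0⟩ : Xt e he) =
      (⟨s, 0⟩ : Xt e he) * bqlL e he l (s⁻¹ * γ * s) * bqlC e he (bqlE e l s γ) := by
  rw [Xt.ext_iff]
  constructor
  · show γ * s = s * (s⁻¹ * γ * s) * 1
    group
  · rw [bqlC_z]
    show l γ + 0 + e γ s = 0 + l (s⁻¹ * γ * s) + e s (s⁻¹ * γ * s) + bqlE e l s γ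
    unfold bqlE
    ring

private theorem bql_conj (s γ : R) (k : ℕ) :
    s⁻¹ * ((s ^ k)⁻¹ * γ * s ^ k) * s = (s ^ (k + 1))⁻¹ * γ * s ^ (k + 1) := by
  rw [pow_succ, mul_inv_rev]
  group

private theorem bql_keyk (l : R → ZMod p) (s γ : R) (k : ℕ) :
    bqlL e he l γ * (⟨s, 0⟩ : Xt e he) ^ k =
      (⟨s, 0⟩ : Xt e he) ^ k * bqlL e he l ((s ^ k)⁻¹ * γ * s ^ k) *
        bqlC e he (∑ i ∈ Finset.range k, bqlE e l s ((s ^ i)⁻¹ * γ * s ^ i)) := by
  induction k with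
  | zero =>
    rw [Finset.range_zero, Finset.sum_empty, bqlC_zero, mul_one, pow_zero, pow_zero, mul_one,
      one_mul, inv_one, one_mul, mul_one]
  | succ k ih =>
    rw [Finset.sum_range_succ, pow_succ (⟨s, 0⟩ : Xt e he), ← mul_assoc, ih, mul_assoc,
      bqlC_mul, ← mul_assoc, mul_assoc ((⟨s, 0⟩ : Xt e he) ^ k), bql_key, bql_conj,
      ← bqlC_add, bqlC_mul _ (bqlC e he _)]
    simp only [mul_assoc]

private theorem bqlC_inj {x : Xt e he} {a b : ZMod p}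
    (h : x * bqlC e he a = x * bqlC e he b) : a = b := by
  have := congrArg Xt.z (mul_left_cancel h)
  exact this

/-- the group theory -/
private theorem bql_core (χ : R → ZMod p) (hχ : ∀ σ τ, χ (σ * τ) = χ σ + χ τ)
    {s : R} (hs : χ s = 1) (l : R → ZMod p)
    (hl : ∀ σ τ, χ σ = 0 → χ τ = 0 → l (σ * τ) = l σ + l τ + e σ τ) :
    ∃ e0 : ZMod p,
      (∀ γ δ, χ γ = 0 → χ δ = 0 → bqlE e l s (γ * δ) = bqlE e l s γ + bqlE e l s δ) ∧
      (∀ γ, χ γ = 0 → ∑ k ∈ Finset.range p, bqlE e l s ((s ^ k)⁻¹ * γ * s ^ k) = 0) ∧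
      bqlE e l s (s ^ p) = 0 ∧
      ∀ (i j : ℕ) (γ δ : R), i < p → j < p → χ γ = 0 → χ δ = 0 →
        ((⟨s, 0⟩ : Xt e he) ^ i * bqlL e he l γ) * ((⟨s, 0⟩ : Xt e he) ^ j * bqlL e he l δ) =
          (⟨s, 0⟩ : Xt e he) ^ (if p ≤ i + j then i + j - p else i + j) *
          bqlL e he l ((if p ≤ i + j then s ^ p else 1) * ((s ^ j)⁻¹ * γ * s ^ j * δ)) *
          bqlC e he (∑ k ∈ Finset.range j, bqlE e l s ((s ^ k)⁻¹ * γ * s ^ k) +
            if p ≤ i + j then e0 else 0) := by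
  have h1 : χ 1 = 0 := by
    have := hχ 1 1
    rw [one_mul] at this
    simpa using this
  have hinv : ∀ σ, χ σ⁻¹ = -χ σ := by
    intro σ
    have := hχ σ⁻¹ σ
    rw [inv_mul_cancel, h1] at this
    exact eq_neg_of_add_eq_zero_left this.symm
  have hpow : ∀ k : ℕ, χ (s ^ k) = k := by
    intro k
    induction k with
    | zero => rw [pow_zero, h1, Nat.cast_zero]
    | succ k ih => rw [pow_succ, hχ, ih, hs, Nat.cast_succ]
  have hp0 : χ (s ^ p) = 0 := by rw [hpow, ZMod.natCast_self]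
  have hconj : ∀ (γ : R) (k : ℕ), χ γ = 0 → χ ((s ^ k)⁻¹ * γ * s ^ k) = 0 := by
    intro γ k h
    rw [hχ, hχ, hinv, h]
    ring
  have hconj1 : ∀ γ : R, χ γ = 0 → χ (s⁻¹ * γ * s) = 0 := by
    intro γ h
    have := hconj γ 1 h
    rwa [pow_one] at this
  have hmul : ∀ σ τ, χ σ = 0 → χ τ = 0 →
      bqlL e he l σ * bqlL e he l τ = bqlL e he l (σ * τ) := by
    intro σ τ h h'
    show (⟨σ * τ, l σ + l τ + e σ τ⟩ : Xt e he) = ⟨σ * τ, l (σ * τ)⟩
    rw [hl σ τ h h']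
  obtain ⟨S, hS⟩ : ∃ S : Xt e he, S = ⟨s, 0⟩ := ⟨_, rfl⟩
  have key := fun γ => bql_key (e := e) (he := he) l s γ
  have keyk := fun γ k => bql_keyk (e := e) (he := he) l s γ k
  simp only [← hS] at key keyk
  rw [← hS]
  -- the power `p`
  obtain ⟨e0, he0⟩ : ∃ e0 : ZMod p, S ^ p = bqlL e he l (s ^ p) * bqlC e he e0 := by
    refine ⟨(S ^ p).z - l (s ^ p), ?_⟩
    rw [Xt.ext_iff]
    constructor
    · rw [bql_pow_r, hS]
      show s ^ p = s ^ p * 1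
      rw [mul_one]
    · rw [bqlC_z]
      show _ = l (s ^ p) + _
      ring
  refine ⟨e0, ?_, ?_, ?_, ?_⟩
  · intro γ δ hγ hδ
    have h2 := key (γ * δ)
    rw [← hmul γ δ hγ hδ, mul_assoc, key δ, ← mul_assoc, ← mul_assoc, key γ,
      mul_assoc (S * _), bqlC_mul, ← mul_assoc (S * _), mul_assoc S, hmul _ _ (hconj1 γ hγ)
      (hconj1 δ hδ), mul_assoc (S * _), bqlC_add] at h2
    have h3 : s⁻¹ * γ * s * (s⁻¹ * δ * s) = s⁻¹ * (γ * δ) * s := by group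
    rw [h3] at h2
    exact (bqlC_inj h2).symm
  · intro γ hγ
    have h2 := keyk γ p
    rw [he0, ← mul_assoc, hmul _ _ hγ hp0, mul_assoc (bqlL e he l (s ^ p)), bqlC_mul,
      ← mul_assoc (bqlL e he l (s ^ p)), hmul _ _ hp0 (hconj γ p hγ), mul_assoc, bqlC_add] at h2
    have h3 : s ^ p * ((s ^ p)⁻¹ * γ * s ^ p) = γ * s ^ p := by group
    rw [h3] at h2
    have h4 := bqlC_inj h2
    have h5 : e0 + ∑ i ∈ Finset.range p, bqlE e l s ((s ^ i)⁻¹ * γ * s ^ i) = e0 + 0 := by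
      rw [← h4, add_zero]
    exact add_left_cancel h5
  · have h2 := key (s ^ p)
    have h3 : s⁻¹ * s ^ p * s = s ^ p := by
      rw [mul_assoc, ← pow_succ, pow_succ', inv_mul_cancel_left]
    rw [h3] at h2
    have h4 : S * S ^ p = S ^ p * S := by rw [← pow_succ', pow_succ]
    rw [he0, mul_assoc (bqlL e he l (s ^ p)), bqlC_mul, ← mul_assoc, ← mul_assoc, h2,
      ] at h4
    have h5 := mul_right_cancel h4
    have h6 : S * bqlL e he l (s ^ p) * bqlC e he 0 =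
        S * bqlL e he l (s ^ p) * bqlC e he (bqlE e l s (s ^ p)) := by
      rw [bqlC_zero, mul_one]
      exact h5
    exact (bqlC_inj h6).symm
  · intro i j γ δ hi hj hγ hδ
    have h2 : S ^ i * bqlL e he l γ * (S ^ j * bqlL e he l δ) =
        S ^ (i + j) * bqlL e he l ((s ^ j)⁻¹ * γ * s ^ j * δ) *
          bqlC e he (∑ k ∈ Finset.range j, bqlE e l s ((s ^ k)⁻¹ * γ * s ^ k)) := by
      rw [← mul_assoc, mul_assoc (S ^ i), keyk γ j, ← mul_assoc, ← mul_assoc, ← pow_add,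
        mul_assoc (S ^ (i + j) * _), bqlC_mul, ← mul_assoc, mul_assoc (S ^ (i + j)),
        hmul _ _ (hconj γ j hγ) hδ]
    rw [h2]
    split_ifs with h
    · have h3 : S ^ (i + j) = S ^ (i + j - p) * S ^ p := by
        rw [← pow_add, Nat.sub_add_cancel h]
      have h4 : χ ((s ^ j)⁻¹ * γ * s ^ j * δ) = 0 := by rw [hχ, hconj γ j hγ, hδ, add_zero]
      rw [h3, he0, ← mul_assoc, mul_assoc _ (bqlC e he e0), bqlC_mul, ← mul_assoc,
        mul_assoc (S ^ (i + j - p)) , hmul _ _ hp0 h4, mul_assoc _ (bqlC e he e0), bqlC_add,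
        add_comm e0]
    · rw [one_mul, add_zero]

end


/-- the group theory with levels -/
private theorem bqlA {p : ℕ} {R : Type} [Group R] {e : R → R → ZMod p} (he : Coc p e) (χ : R → ZMod p)
    (hχ : ∀ σ τ, χ (σ * τ) = χ σ + χ τ) {s : R} (hs : χ s = 1) (l : R → ZMod p)
    (hl : ∀ σ τ, χ σ = 0 → χ τ = 0 → l (σ * τ) = l σ + l τ + e σ τ) (N : Subgroup R) [hNn : N.Normal]
    (hNe : ∀ σ τ, ∀ u ∈ N, e (σ * u) τ = e σ τ ∧ e σ (τ * u) = e σ τ) (hNl : ∀ σ, ∀ u ∈ N, l (σ * u) = l σ)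
    (hNχ : ∀ σ, ∀ u ∈ N, χ (σ * u) = χ σ) :
    ∃ (η m : R → ZMod p) (e0 : ZMod p), (∀ σ, ∀ u ∈ N, η (σ * u) = η σ) ∧ (∀ σ, ∀ u ∈ N, m (σ * u) = m σ) ∧
      (∀ γ δ, χ γ = 0 → χ δ = 0 → η (γ * δ) = η γ + η δ) ∧
      (∀ γ, χ γ = 0 → ∑ k ∈ Finset.range p, η ((s ^ k)⁻¹ * γ * s ^ k) = 0) ∧
      η (s ^ p) = 0 ∧
      ∀ (i j : ℕ) (γ δ : R), i < p → j < p → χ γ = 0 → χ δ = 0 →
        m (s ^ i * γ) + m (s ^ j * δ) + e (s ^ i * γ) (s ^ j * δ) - m (s ^ i * γ * (s ^ j * δ)) =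
          ∑ k ∈ Finset.range j, η ((s ^ k)⁻¹ * γ * s ^ k) + if p ≤ i + j then e0 else 0 := by
  have h0 : χ 1 = 0 := by
    have := hχ 1 1
    rw [one_mul] at this
    simpa using this
  have mc : ∀ u ∈ N, s⁻¹ * u * s ∈ N := by
    intro u hu
    have h := hNn.conj_mem u hu s⁻¹
    rwa [inv_inv] at h
  obtain ⟨e0, h1, h2, h3, h4⟩ := bql_core (e := e) (he := he) χ hχ hs l hl
  have hpow : ∀ k : ℕ, χ (s ^ k) = k := by
    intro k
    induction k with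
    | zero => rw [pow_zero, h0, Nat.cast_zero]
    | succ k ih => rw [pow_succ, hχ, ih, hs, Nat.cast_succ]
  obtain ⟨m, hm⟩ : ∃ m : R → ZMod p, ∀ σ, m σ =
      ((⟨s, 0⟩ : Xt e he) ^ (χ σ).val *
        bqlL e he l ((s ^ (χ σ).val)⁻¹ * σ)).z := ⟨_, fun _ => rfl⟩
  have hms : ∀ (i : ℕ) (γ : R), i < p → χ γ = 0 →
      m (s ^ i * γ) = ((⟨s, 0⟩ : Xt e he) ^ i * bqlL e he l γ).z := by
    intro i γ hi hγ
    have h5 : (χ (s ^ i * γ)).val = i := by
      rw [hχ, hγ, add_zero, hpow, ZMod.val_natCast_of_lt hi]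
    rw [hm, h5, inv_mul_cancel_left]
  have hr : ∀ (i : ℕ) (γ : R),
      ((⟨s, 0⟩ : Xt e he) ^ i * bqlL e he l γ).r = s ^ i * γ := by
    intro i γ
    rw [bql_mul]
    show ((⟨s, 0⟩ : Xt e he) ^ i).r * γ = _
    rw [bql_pow_r]
  refine ⟨bqlE e l s, m, e0, fun σ u hu => ?_, fun σ u hu => ?_, h1, h2, h3,
    fun i j γ δ hi hj hγ hδ => ?_⟩
  · have h5 : s⁻¹ * (σ * u) * s = s⁻¹ * σ * s * (s⁻¹ * u * s) := by group
    unfold bqlE
    rw [h5, hNl σ u hu, hNl _ _ (mc u hu), (hNe σ s u hu).1,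
      (hNe s (s⁻¹ * σ * s) _ (mc u hu)).2]
  · have h5 : χ (σ * u) = χ σ := hNχ σ u hu
    rw [hm, hm, h5, ← mul_assoc]
    show _ + l (_ * u) + e _ (_ * u) = _ + l _ + e _ _
    rw [hNl _ u hu, (hNe _ _ u hu).2]
    rfl
  · have h5 := h4 i j γ δ hi hj hγ hδ
    have hz := congrArg Xt.z h5
    have hr' := congrArg Xt.r h5
    rw [bqlC_z] at hz
    have hzl : ((⟨s, 0⟩ : Xt e he) ^ i * bqlL e he l γ * ((⟨s, 0⟩ : Xt e he) ^ j *
        bqlL e he l δ)).z = m (s ^ i * γ) + m (s ^ j * δ) + e (s ^ i * γ) (s ^ j * δ) := by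
      rw [hms i γ hi hγ, hms j δ hj hδ, ← hr i γ, ← hr j δ]
      rfl
    have hrl : ((⟨s, 0⟩ : Xt e he) ^ i * bqlL e he l γ * ((⟨s, 0⟩ : Xt e he) ^ j *
        bqlL e he l δ)).r = s ^ i * γ * (s ^ j * δ) := by
      rw [bql_mul]
      show ((⟨s, 0⟩ : Xt e he) ^ i * bqlL e he l γ).r * ((⟨s, 0⟩ : Xt e he) ^ j *
        bqlL e he l δ).r = _
      rw [hr, hr]
    have hrr : ∀ (x : Xt e he) (a : ZMod p), (x * bqlC e he a).r = x.r := by
      intro x a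
      show x.r * 1 = x.r
      rw [mul_one]
    rw [hrl, hrr, hr] at hr'
    have hlt : (if p ≤ i + j then i + j - p else i + j) < p := by
      split_ifs <;> omega
    have hk0 : χ ((if p ≤ i + j then s ^ p else 1) * ((s ^ j)⁻¹ * γ * s ^ j * δ)) = 0 := by
      have h6 : χ (if p ≤ i + j then s ^ p else 1) = 0 := by
        split_ifs
        · rw [hpow, ZMod.natCast_self]
        · exact h0
      have h7 : χ (s ^ j)⁻¹ + χ (s ^ j) = 0 := by
        rw [← hχ, inv_mul_cancel, h0]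
      rw [hχ, h6, hχ, hχ, hχ, hγ, hδ]
      linear_combination h7
    have hm2 := hms _ _ hlt hk0
    rw [← hr'] at hm2
    rw [← hm2, hzl] at hz
    rw [hz]
    ring

variable {K : Type} [Field K] [NumberField K] {Ω : Type} [Field Ω] [Algebra K Ω] [IsAlgClosure K Ω]
  {p : ℕ} {ζ : K}

/-- functions of finite level on a subgroup -/
private def LvV (V : Subgroup Gal(Ω/K)) {X : Type} (f : V → X) : Prop :=
  ∃ E : IntermediateField K Ω, FiniteDimensional K E ∧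
    ∀ σ u : V, (u : Gal(Ω/K)) ∈ E.fixingSubgroup → f (σ * u) = f σ

omit [NumberField K] [IsAlgClosure K Ω] in
private theorem bql_le {E M : IntermediateField K Ω} (h : E ≤ M) {u : Gal(Ω/K)}
    (hu : u ∈ M.fixingSubgroup) : u ∈ E.fixingSubgroup := by
  rw [IntermediateField.mem_fixingSubgroup_iff] at hu ⊢
  exact fun x hx => hu x (h hx)

omit [NumberField K] [IsAlgClosure K Ω] in
private theorem lvV_pair {V : Subgroup Gal(Ω/K)} {X Y Z : Type} {f : V → X} {g : V → Y} (hf : LvV V f) (hg : LvV V g)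
    (F : X → Y → Z) : LvV V (fun σ => F (f σ) (g σ)) := by
  obtain ⟨E, hE, h1⟩ := hf
  obtain ⟨E', hE', h2⟩ := hg
  refine ⟨E ⊔ E', IntermediateField.finiteDimensional_sup E E', fun σ u hu => ?_⟩
  show F (f (σ * u)) (g (σ * u)) = F (f σ) (g σ)
  rw [h1 σ u (bql_le le_sup_left hu), h2 σ u (bql_le le_sup_right hu)]

omit [NumberField K] [IsAlgClosure K Ω] in
private theorem lvV_res (V : Subgroup Gal(Ω/K)) {X : Type} {f : Gal(Ω/K) → X} (hf : Lev f) :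
    LvV V (fun σ : V => f (σ : Gal(Ω/K))) := by
  obtain ⟨E, hE, h1⟩ := hf
  exact ⟨E, hE, fun σ u hu => h1 _ _ hu⟩

omit [NumberField K] [IsAlgClosure K Ω] in
private theorem lvV_ext {V : Subgroup Gal(Ω/K)} {X : Type} [Inhabited X] {f : V → X} (hf : LvV V f) :
    ∃ F : Gal(Ω/K) → X, Lev F ∧ ∀ σ : V, F (σ : Gal(Ω/K)) = f σ := by
  classical
  obtain ⟨E, hE, h1⟩ := hf
  have hwd : ∀ v w : V, (v : Gal(Ω/K))⁻¹ * (w : Gal(Ω/K)) ∈ E.fixingSubgroup → f w = f v := by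
    intro v w h
    have h2 := h1 v (v⁻¹ * w) h
    rwa [mul_inv_cancel_left] at h2
  refine ⟨fun g => if h : ∃ v : V, (v : Gal(Ω/K))⁻¹ * g ∈ E.fixingSubgroup then f h.choose else default,
    ⟨E, hE, fun g u hu => ?_⟩, fun σ => ?_⟩
  · by_cases h : ∃ v : V, (v : Gal(Ω/K))⁻¹ * g ∈ E.fixingSubgroup
    · have h' : ∃ v : V, (v : Gal(Ω/K))⁻¹ * (g * u) ∈ E.fixingSubgroup := by
        obtain ⟨v, hv⟩ := h
        refine ⟨v, ?_⟩
        rw [← mul_assoc]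
        exact mul_mem hv hu
      simp only [dif_pos h, dif_pos h']
      apply hwd
      have h3 := h.choose_spec
      have h4 := h'.choose_spec
      have h5 := mul_mem (mul_mem h3 hu) (inv_mem h4)
      have h6 : ((h.choose : V) : Gal(Ω/K))⁻¹ * g * u * (((h'.choose : V) : Gal(Ω/K))⁻¹ * (g * u))⁻¹ =
          ((h.choose : V) : Gal(Ω/K))⁻¹ * ((h'.choose : V) : Gal(Ω/K)) := by group
      rwa [h6] at h5
    · have h' : ¬ ∃ v : V, (v : Gal(Ω/K))⁻¹ * (g * u) ∈ E.fixingSubgroup := by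
        rintro ⟨v, hv⟩
        apply h
        refine ⟨v, ?_⟩
        have h5 := mul_mem hv (inv_mem hu)
        have h6 : (v : Gal(Ω/K))⁻¹ * (g * u) * u⁻¹ = (v : Gal(Ω/K))⁻¹ * g := by group
        rwa [h6] at h5
      simp only [dif_neg h, dif_neg h']
  · have h : ∃ v : V, (v : Gal(Ω/K))⁻¹ * (σ : Gal(Ω/K)) ∈ E.fixingSubgroup := by
      refine ⟨σ, ?_⟩
      rw [inv_mul_cancel]
      exact one_mem _
    simp only [dif_pos h]
    exact (hwd _ _ h.choose_spec).symm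

omit [NumberField K] [IsAlgClosure K Ω] in
/-- the orbit of an algebraic element -/
private theorem lvV_el (V : Subgroup Gal(Ω/K)) {θ : Ω} (hθ : IsIntegral K θ) : LvV V (fun σ : V => (σ : Gal(Ω/K)) θ) := by
  refine ⟨IntermediateField.adjoin K {θ}, IntermediateField.adjoin.finiteDimensional hθ, fun σ u hu => ?_⟩
  rw [IntermediateField.mem_fixingSubgroup_iff] at hu
  show (σ : Gal(Ω/K)) ((u : Gal(Ω/K)) θ) = (σ : Gal(Ω/K)) θ
  rw [hu θ (IntermediateField.mem_adjoin_simple_self K θ)]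

omit [NumberField K] [IsAlgClosure K Ω] in
/-- Hilbert 90 for a subgroup -/
private theorem bql_h90 (V : Subgroup Gal(Ω/K)) (κ : V → Ω) (h0 : ∀ σ, κ σ ≠ 0)
    (hm : ∀ σ τ : V, κ (σ * τ) = κ σ * (σ : Gal(Ω/K)) (κ τ)) (hL : LvV V κ) :
    ∃ T : Ω, T ≠ 0 ∧ ∀ σ : V, κ σ * (σ : Gal(Ω/K)) T = T := by
  classical
  obtain ⟨E, hEf, hE⟩ := hL
  have : Fintype (E →ₐ[K] Ω) := Fintype.ofFinite _
  obtain ⟨r, hr⟩ : ∃ r : V → (E →ₐ[K] Ω), ∀ u x, r u x = (u : Gal(Ω/K)) (x : Ω) :=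
    ⟨fun u => ((u : Gal(Ω/K)) : Ω →ₐ[K] Ω).comp E.val, fun u x => rfl⟩
  have hχ : ∀ u v : V, r u = r v → κ u = κ v := by
    intro u v huv
    have h1 : ((v⁻¹ * u : V) : Gal(Ω/K)) ∈ E.fixingSubgroup := by
      rw [IntermediateField.mem_fixingSubgroup_iff]
      intro x hx
      have h2 := DFunLike.congr_fun huv ⟨x, hx⟩
      rw [hr, hr] at h2
      simp only at h2
      rw [Subgroup.coe_mul, AlgEquiv.mul_apply, h2, ← AlgEquiv.mul_apply, ← Subgroup.coe_mul,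
        inv_mul_cancel]
      rfl
    have h3 := hE v _ h1
    rwa [mul_inv_cancel_left] at h3
  obtain ⟨c, hc⟩ : ∃ c : (E →ₐ[K] Ω) → Ω, c = fun φ => if h : ∃ v : V, r v = φ then κ h.choose else 0 := ⟨_, rfl⟩
  have hc1 : ∀ v : V, c (r v) = κ v := by
    intro v
    have h : ∃ w : V, r w = r v := ⟨v, rfl⟩
    rw [hc]
    simp only [dif_pos h]
    exact hχ _ _ h.choose_spec
  have hc2 : ∀ φ, (¬ ∃ v : V, r v = φ) → c φ = 0 := by
    intro φ h
    rw [hc]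
    simp only [dif_neg h]
  obtain ⟨T, hT⟩ : ∃ T : V → (E →ₐ[K] Ω) → (E →ₐ[K] Ω), ∀ u φ x,
      T u φ x = (u : Gal(Ω/K)) (φ x) :=
    ⟨fun u φ => ((u : Gal(Ω/K)) : Ω →ₐ[K] Ω).comp φ, fun u φ x => rfl⟩
  have hTinv : ∀ (u : V) (φ), T u⁻¹ (T u φ) = φ := by
    intro u φ
    ext x
    rw [hT, hT, ← AlgEquiv.mul_apply, ← Subgroup.coe_mul, inv_mul_cancel]
    rfl
  have hTb : ∀ u : V, Function.Bijective (T u) := by
    intro u
    constructor
    · intro φ ψ h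
      rw [← hTinv u φ, h, hTinv u ψ]
    · intro φ
      refine ⟨T u⁻¹ φ, ?_⟩
      have := hTinv u⁻¹ φ
      rwa [inv_inv] at this
  have hTr : ∀ u v : V, T u (r v) = r (u * v) := by
    intro u v
    ext x
    rw [hT, hr, hr, ← AlgEquiv.mul_apply, ← Subgroup.coe_mul]
  have hcT : ∀ (u : V) (φ), κ u * (u : Gal(Ω/K)) (c φ) = c (T u φ) := by
    intro u φ
    by_cases h : ∃ v : V, r v = φ
    · obtain ⟨v, rfl⟩ := h
      rw [hTr, hc1, hc1, hm]
    · rw [hc2 φ h, map_zero, mul_zero, hc2]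
      rintro ⟨v, hv⟩
      apply h
      refine ⟨u⁻¹ * v, ?_⟩
      rw [← hTr, hv, hTinv]
  have hne : ∃ x : E, ∑ φ : (E →ₐ[K] Ω), c φ * φ x ≠ 0 := by
    by_contra hcon
    push Not at hcon
    have hli := linearIndependent_toLinearMap K E Ω
    rw [Fintype.linearIndependent_iff] at hli
    have h1 := hli c (by
      ext x
      rw [LinearMap.sum_apply]
      simpa using hcon x) (r 1)
    rw [hc1] at h1
    exact h0 1 h1
  obtain ⟨x, hx⟩ := hne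
  refine ⟨_, hx, fun u => ?_⟩
  rw [map_sum, Finset.mul_sum]
  calc ∑ φ : (E →ₐ[K] Ω), κ u * (u : Gal(Ω/K)) (c φ * φ x) =
      ∑ φ : (E →ₐ[K] Ω), c (T u φ) * T u φ x := by
        refine Finset.sum_congr rfl fun φ _ => ?_
        rw [map_mul, ← mul_assoc, hcT u φ, hT]
    _ = _ := by
        rw [(hTb u).sum_comp (fun φ => c φ * φ x)]

/-- the criterion for coboundaries on a subgroup -/
private theorem bql_tv (hp : p.Prime) (hζ : IsPrimitiveRoot ζ p) (V : Subgroup Gal(Ω/K)) (Y : V → V → ZMod p)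
    (Λ : V → Ω) (h0 : ∀ σ, Λ σ ≠ 0) (hΛ : LvV V Λ)
    (h : ∀ σ τ : V, algebraMap K Ω ζ ^ (Y σ τ).val * Λ (σ * τ) = Λ σ * (σ : Gal(Ω/K)) (Λ τ)) :
    ∃ l : V → ZMod p, LvV V l ∧ ∀ σ τ, l (σ * τ) = l σ + l τ + Y σ τ := by
  classical
  have hac : IsAlgClosed Ω := IsAlgClosure.isAlgClosed K
  have : NeZero p := ⟨hp.ne_zero⟩
  have hz1 : algebraMap K Ω ζ ^ p = 1 := by rw [← map_pow, hζ.pow_eq_one, map_one]
  have hzp : IsPrimitiveRoot (algebraMap K Ω ζ) p := hζ.map_of_injective (algebraMap K Ω).injective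
  obtain ⟨T, hT0, hT⟩ := bql_h90 V (fun σ => Λ σ ^ p) (fun σ => pow_ne_zero p (h0 σ)) (fun σ τ => by
    have e3 := congrArg (fun z => z ^ p) (h σ τ)
    simp only [mul_pow] at e3
    rw [← pow_mul, mul_comm _ p, pow_mul, hz1, one_pow, one_mul] at e3
    rw [e3, map_pow]) (lvV_pair hΛ hΛ (fun x _ => x ^ p))
  obtain ⟨θ, hθ⟩ := IsAlgClosed.exists_pow_nat_eq T hp.pos
  have hθ0 : θ ≠ 0 := by
    rintro rfl
    rw [zero_pow hp.ne_zero] at hθ
    exact hT0 hθ.symm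
  have hroot : ∀ σ : V, ∃ i : ℕ, i < p ∧ algebraMap K Ω ζ ^ i = Λ σ * (σ : Gal(Ω/K)) θ / θ := by
    intro σ
    have e1 : (Λ σ * (σ : Gal(Ω/K)) θ / θ) ^ p = 1 := by
      rw [div_pow, mul_pow, ← map_pow, hθ, hT σ]
      exact div_self hT0
    obtain ⟨i, hi, hi2⟩ := hzp.eq_pow_of_pow_eq_one e1
    exact ⟨i, hi, hi2⟩
  choose i hi hi2 using hroot
  obtain ⟨l, hl⟩ : ∃ l : V → ZMod p, l = fun σ => (i σ : ZMod p) := ⟨_, rfl⟩
  have hlv : ∀ σ, (l σ).val = i σ := by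
    intro σ
    rw [hl]
    exact ZMod.val_cast_of_lt (hi σ)
  have hl2 : ∀ σ, algebraMap K Ω ζ ^ (l σ).val * θ = Λ σ * (σ : Gal(Ω/K)) θ := by
    intro σ
    rw [hlv, hi2]
    exact div_mul_cancel₀ _ hθ0
  have hinj : ∀ a b : ZMod p, algebraMap K Ω ζ ^ a.val = algebraMap K Ω ζ ^ b.val → a = b := by
    intro a b hab
    exact ZMod.val_injective p (hzp.pow_inj (ZMod.val_lt a) (ZMod.val_lt b) hab)
  have hadd : ∀ σ τ, Y σ τ + l (σ * τ) = l σ + l τ := by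
    intro σ τ
    apply hinj
    rw [gtriv_pow hζ hp, gtriv_pow hζ hp]
    have e1 := hl2 (σ * τ)
    have e2 := congrArg (fun z => (σ : Gal(Ω/K)) z) (hl2 τ)
    rw [map_mul, map_mul, map_pow, AlgEquiv.commutes] at e2
    have e3 := hl2 σ
    have e4 : ((σ * τ : V) : Gal(Ω/K)) θ = (σ : Gal(Ω/K)) ((τ : Gal(Ω/K)) θ) := rfl
    rw [e4] at e1
    have e5 := h σ τ
    apply mul_right_cancel₀ hθ0
    calc algebraMap K Ω ζ ^ (Y σ τ).val * algebraMap K Ω ζ ^ (l (σ * τ)).val * θ =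
          algebraMap K Ω ζ ^ (Y σ τ).val * (algebraMap K Ω ζ ^ (l (σ * τ)).val * θ) := by
            ring
      _ = (algebraMap K Ω ζ ^ (Y σ τ).val * Λ (σ * τ)) * (σ : Gal(Ω/K)) ((τ : Gal(Ω/K)) θ) := by rw [e1]; ring
      _ = Λ σ * ((σ : Gal(Ω/K)) (Λ τ) * (σ : Gal(Ω/K)) ((τ : Gal(Ω/K)) θ)) := by rw [e5]; ring
      _ = Λ σ * (algebraMap K Ω ζ ^ (l τ).val * (σ : Gal(Ω/K)) θ) := by rw [e2]
      _ = algebraMap K Ω ζ ^ (l τ).val * (Λ σ * (σ : Gal(Ω/K)) θ) := by ring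
      _ = _ := by rw [← e3]; ring
  have hlev : LvV V l := by
    have hθint : IsIntegral K θ := (Algebra.IsAlgebraic.isAlgebraic (R := K) θ).isIntegral
    obtain ⟨F, hF, hF2⟩ := lvV_pair hΛ (lvV_el V hθint) (fun x y => (x, y))
    refine ⟨F, hF, fun σ u hu => ?_⟩
    have h2 := hF2 σ u hu
    rw [Prod.mk.injEq] at h2
    apply hinj
    rw [hlv, hlv, hi2, hi2, h2.1, h2.2]
  refine ⟨fun σ => - l σ, lvV_pair hlev hlev (fun x _ => -x), fun σ τ => ?_⟩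
  have h1 := hadd σ τ
  linear_combination -h1


private theorem bql_zp (hp : p.Prime) (hζ : IsPrimitiveRoot ζ p) (n : ℕ) :
    algebraMap K Ω ζ ^ n = algebraMap K Ω ζ ^ ((n : ZMod p)).val := by
  have h1 : algebraMap K Ω ζ ^ p = 1 := by rw [← map_pow, hζ.pow_eq_one, map_one]
  rw [ZMod.val_natCast, ← pow_eq_pow_mod _ h1]

private theorem bql_kpow (c : Kˣ) (s : Gal(Ω/K)) (n : ℕ) :
    kk p ζ c (s ^ n) = n * kk p ζ c s := by
  induction n with
  | zero => rw [pow_zero, kk_one, Nat.cast_zero, zero_mul]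
  | succ n ih => rw [pow_succ, kk_mul, ih]; push_cast; ring

private theorem bql_kinv (c : Kˣ) (s : Gal(Ω/K)) : kk p ζ c s⁻¹ = - kk p ζ c s := by
  have h1 := kk_mul (p := p) (ζ := ζ) c s⁻¹ s
  rw [inv_mul_cancel, kk_one] at h1
  exact (neg_eq_of_add_eq_zero_left h1.symm).symm

private theorem bql_cj (c : Kˣ) (s γ : Gal(Ω/K)) (k : ℕ) (h : kk p ζ c γ = 0) :
    kk p ζ c ((s ^ k)⁻¹ * γ * s ^ k) = 0 := by
  rw [kk_mul, kk_mul, bql_kinv, h]
  ring

/-- the product of the conjugates `s ^ k B`, `k < i` -/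
private def bqlP (s : Gal(Ω/K)) (B : Ω) (i : ℕ) : Ω := ∏ k ∈ Finset.range i, (s ^ k) B

private theorem bql_add (s : Gal(Ω/K)) (B : Ω) (i j : ℕ) :
    bqlP s B i * (s ^ i) (bqlP s B j) = bqlP s B (i + j) := by
  unfold bqlP
  rw [Finset.prod_range_add, map_prod]
  congr 1
  refine Finset.prod_congr rfl fun k _ => ?_
  rw [pow_add, AlgEquiv.mul_apply]

private theorem bql_ne (s : Gal(Ω/K)) {B : Ω} (hB : B ≠ 0) (i : ℕ) : bqlP s B i ≠ 0 := by
  unfold bqlP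
  exact Finset.prod_ne_zero_iff.2 fun k _ => (map_ne_zero_iff _ (s ^ k).injective).2 hB

/-- bq on a subgroup -/
theorem bql (hp : p.Prime) (hζ : IsPrimitiveRoot ζ p) {X : Gal(Ω/K) → Gal(Ω/K) → ZMod p}
    (hX : C2 X) (V : Subgroup Gal(Ω/K)) {c : Kˣ} {s : Gal(Ω/K)} (hs : s ∈ V) (hs1 : kk p ζ c s = 1)
    (hk : Kl X {σ : Gal(Ω/K) | σ ∈ V ∧ kk p ζ c σ = 0}) :
    ∃ ψ : V →* Multiplicative (ZMod p),
      (∃ E : IntermediateField K Ω, FiniteDimensional K E ∧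
        ∀ u : V, (u : Gal(Ω/K)) ∈ E.fixingSubgroup → ψ u = 1) ∧
      ∃ l : Gal(Ω/K) → ZMod p, Lev l ∧ ∀ σ τ : V, l ((σ : Gal(Ω/K)) * τ) = l σ + l τ +
        (X σ τ + kk p ζ c (σ : Gal(Ω/K)) * Multiplicative.toAdd (ψ τ)) := by
  classical
  have hp0 : NeZero p := ⟨hp.ne_zero⟩
  obtain ⟨l, hl, hl2⟩ := hk
  -- a common level
  obtain ⟨E1, hE1, hX1⟩ := hX.lev
  obtain ⟨E2, hE2, hl1⟩ := hl
  obtain ⟨E3, hE3, hk1⟩ := gtriv_kk (Ω := Ω) hp hζ c
  have hf : FiniteDimensional K (E1 ⊔ E2 ⊔ E3 : IntermediateField K Ω) := by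
    have := IntermediateField.finiteDimensional_sup E1 E2
    exact IntermediateField.finiteDimensional_sup (E1 ⊔ E2) E3
  obtain ⟨M, hMf, hMn, hM, -⟩ := gtriv_field (E1 ⊔ E2 ⊔ E3) (fun _ => (0 : Ω)) fun _ _ _ => rfl
  have m1 : ∀ u ∈ M.fixingSubgroup, u ∈ E1.fixingSubgroup := fun u hu =>
    bql_le ((le_sup_left.trans le_sup_left).trans hM) hu
  have m2 : ∀ u ∈ M.fixingSubgroup, u ∈ E2.fixingSubgroup := fun u hu =>
    bql_le ((le_sup_right.trans le_sup_left).trans hM) hu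
  have m3 : ∀ u ∈ M.fixingSubgroup, u ∈ E3.fixingSubgroup := fun u hu =>
    bql_le (le_sup_right.trans hM) hu
  have hMN : (M.fixingSubgroup.subgroupOf V).Normal := by
    have h1 : M.fixingSubgroup.Normal := by
      rw [← IntermediateField.restrictNormalHom_ker]
      exact MonoidHom.normal_ker _
    infer_instance
  obtain ⟨sV, hsV⟩ : ∃ sV : V, (sV : Gal(Ω/K)) = s := ⟨⟨s, hs⟩, rfl⟩
  obtain ⟨η, m, e0, hηL, hmL, hηa, hηs, hηp, hform⟩ :=
    bqlA (R := V) (e := fun a b : V => X a b) ⟨fun a => hX.l1 _, fun a => hX.r1 _, fun a b c => hX.co _ _ _⟩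
      (fun a : V => kk p ζ c (a : Gal(Ω/K))) (fun σ τ => kk_mul c _ _) (s := sV) (by rw [hsV]; exact hs1)
      (fun a : V => l (a : Gal(Ω/K))) (fun σ τ h1 h2 => hl2 σ ⟨σ.2, h1⟩ τ ⟨τ.2, h2⟩)
      (M.fixingSubgroup.subgroupOf V)
      (fun σ τ u hu => hX1 σ τ u (m1 _ (Subgroup.mem_subgroupOf.1 hu)))
      (fun σ u hu => hl1 σ u (m2 _ (Subgroup.mem_subgroupOf.1 hu)))
      (fun σ u hu => hk1 σ u (m3 _ (Subgroup.mem_subgroupOf.1 hu)))
  have hη1 : η 1 = 0 := by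
    have h := hηa 1 1 (kk_one c) (kk_one c)
    rw [mul_one] at h
    exact left_eq_add.1 h
  have hmLv : LvV V m := ⟨M, hMf, fun σ u hu => hmL σ u (Subgroup.mem_subgroupOf.2 hu)⟩
  -- the subgroup and its character
  obtain ⟨U, hU⟩ : ∃ U : Subgroup Gal(Ω/K), ∀ σ, σ ∈ U ↔ σ ∈ V ∧ kk p ζ c σ = 0 := by
    refine ⟨{ carrier := {σ | σ ∈ V ∧ kk p ζ c σ = 0}
              mul_mem' := ?_
              one_mem' := ⟨V.one_mem, kk_one c⟩
              inv_mem' := ?_ }, fun σ => Iff.rfl⟩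
    · rintro a b ⟨ha, ha'⟩ ⟨hb, hb'⟩
      refine ⟨V.mul_mem ha hb, ?_⟩
      rw [kk_mul, ha', hb', add_zero]
    · rintro a ⟨ha, ha'⟩
      refine ⟨V.inv_mem ha, ?_⟩
      rw [bql_kinv, ha', neg_zero]
  obtain ⟨χ, hχ⟩ : ∃ χ : U →* Multiplicative (ZMod p), ∀ u : U,
      Multiplicative.toAdd (χ u) = η ⟨(u : Gal(Ω/K)), ((hU _).1 u.2).1⟩ := by
    refine ⟨{ toFun := fun u => Multiplicative.ofAdd (η ⟨(u : Gal(Ω/K)), ((hU _).1 u.2).1⟩)
              map_one' := ?_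
              map_mul' := ?_ }, fun u => rfl⟩
    · change Multiplicative.ofAdd (η 1) = 1
      rw [hη1]
      rfl
    · intro a b
      change Multiplicative.ofAdd (η (⟨(a : Gal(Ω/K)), ((hU _).1 a.2).1⟩ * ⟨(b : Gal(Ω/K)), ((hU _).1 b.2).1⟩)) = _
      rw [hηa _ _ ((hU _).1 a.2).2 ((hU _).1 b.2).2]
      rfl
  obtain ⟨B, hB0, hB⟩ := kum_sub hp hζ U χ M (fun u hu => by
    have h1 := hηL 1 ⟨(u : Gal(Ω/K)), ((hU _).1 u.2).1⟩ (Subgroup.mem_subgroupOf.2 hu)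
    rw [one_mul, hη1, ← hχ] at h1
    exact Multiplicative.toAdd.injective h1)
  have hBη : ∀ γ : V, kk p ζ c (γ : Gal(Ω/K)) = 0 → (γ : Gal(Ω/K)) B = algebraMap K Ω ζ ^ (η γ).val * B := by
    intro γ hγ
    have h1 := hB ⟨γ, (hU γ).2 ⟨γ.2, hγ⟩⟩
    rw [hχ] at h1
    exact h1
  have hspow : ∀ k : ℕ, ((sV ^ k : V) : Gal(Ω/K)) = s ^ k := by
    intro k
    rw [Subgroup.coe_pow, hsV]
  have hspk : ∀ k : ℕ, kk p ζ c ((sV ^ k : V) : Gal(Ω/K)) = k := by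
    intro k
    rw [hspow, bql_kpow, hs1, mul_one]
  have hact : ∀ (γ : V) (_ : kk p ζ c (γ : Gal(Ω/K)) = 0) (i : ℕ), (γ : Gal(Ω/K)) (bqlP s B i) =
      algebraMap K Ω ζ ^ (∑ k ∈ Finset.range i, η ((sV ^ k)⁻¹ * γ * sV ^ k)).val * bqlP s B i := by
    intro γ hγ i
    induction i with
    | zero => simp [bqlP]
    | succ i ih =>
      have e1 : bqlP s B (i + 1) = bqlP s B i * (s ^ i) B := by
        unfold bqlP
        rw [Finset.prod_range_succ]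
      have e2 : (γ : Gal(Ω/K)) ((s ^ i) B) =
          algebraMap K Ω ζ ^ (η ((sV ^ i)⁻¹ * γ * sV ^ i)).val * (s ^ i) B := by
        have e4 : (((sV ^ i)⁻¹ * γ * sV ^ i : V) : Gal(Ω/K)) = (s ^ i)⁻¹ * γ * s ^ i := by
          rw [Subgroup.coe_mul, Subgroup.coe_mul, Subgroup.coe_inv, hspow]
        have e3 : (γ : Gal(Ω/K)) ((s ^ i) B) = (s ^ i) ((((sV ^ i)⁻¹ * γ * sV ^ i : V) : Gal(Ω/K)) B) := by
          rw [e4, ← AlgEquiv.mul_apply, ← AlgEquiv.mul_apply]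
          congr 1
          group
        have e5 : kk p ζ c (((sV ^ i)⁻¹ * γ * sV ^ i : V) : Gal(Ω/K)) = 0 := by
          rw [e4]
          exact bql_cj c s γ i hγ
        rw [e3, hBη _ e5, map_mul, map_pow, AlgEquiv.commutes]
      rw [e1, map_mul, ih, e2, Finset.sum_range_succ, gkus_pow_add hζ hp]
      ring
  have hrep : ∀ σ : V, ∃ (i : ℕ) (γ : V), i < p ∧ kk p ζ c (γ : Gal(Ω/K)) = 0 ∧ σ = sV ^ i * γ ∧
      (kk p ζ c (σ : Gal(Ω/K))).val = i := by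
    intro σ
    refine ⟨(kk p ζ c (σ : Gal(Ω/K))).val, (sV ^ (kk p ζ c (σ : Gal(Ω/K))).val)⁻¹ * σ, ZMod.val_lt _, ?_, ?_, rfl⟩
    · rw [Subgroup.coe_mul, Subgroup.coe_inv, kk_mul, bql_kinv, hspk, ZMod.natCast_zmod_val, neg_add_cancel]
    · group
  -- `s ^ p B = B`
  have hsp : kk p ζ c ((sV ^ p : V) : Gal(Ω/K)) = 0 := by
    rw [hspk, ZMod.natCast_self]
  have hspB : (s ^ p) B = B := by
    have h1 := hBη _ hsp
    rw [hηp, ZMod.val_zero, pow_zero, one_mul, hspow] at h1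
    exact h1
  have hper : ∀ r, bqlP s B (p + r) = bqlP s B p * bqlP s B r := by
    intro r
    rw [← bql_add]
    congr 1
    unfold bqlP
    rw [map_prod]
    refine Finset.prod_congr rfl fun k _ => ?_
    rw [← AlgEquiv.mul_apply, ← pow_add, add_comm, pow_add, AlgEquiv.mul_apply, hspB]
  have hC0 : bqlP s B p ≠ 0 := bql_ne s hB0 p
  -- the product is fixed by `V`
  have hCs : ∀ i, (s ^ i) (bqlP s B p) = bqlP s B p := by
    intro i
    have h1 := bql_add s B i p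
    rw [add_comm i p, hper] at h1
    have h2 := bql_ne s hB0 i
    rw [mul_comm (bqlP s B p)] at h1
    exact mul_left_cancel₀ h2 h1
  have hCγ : ∀ γ : V, kk p ζ c (γ : Gal(Ω/K)) = 0 → (γ : Gal(Ω/K)) (bqlP s B p) = bqlP s B p := by
    intro γ hγ
    rw [hact γ hγ p, hηs γ hγ, ZMod.val_zero, pow_zero, one_mul]
  have hCV : ∀ σ : V, (σ : Gal(Ω/K)) (bqlP s B p) = bqlP s B p := by
    intro σ
    obtain ⟨i, γ, hi, hγ, rfl, -⟩ := hrep σ
    rw [Subgroup.coe_mul, AlgEquiv.mul_apply, hCγ γ hγ, hspow, hCs i]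
  have hζ0 : ζ ≠ 0 := hζ.ne_zero hp.ne_zero
  have hz0 : algebraMap K Ω ζ ≠ 0 := by
    rw [Ne, map_eq_zero]
    exact hζ0
  have hz1 : algebraMap K Ω ζ ^ p = 1 := by rw [← map_pow, hζ.pow_eq_one, map_one]
  have hzp : IsPrimitiveRoot (algebraMap K Ω ζ) p := hζ.map_of_injective (algebraMap K Ω).injective
  have hac : IsAlgClosed Ω := IsAlgClosure.isAlgClosed K
  -- the element of the fixed field and its root
  obtain ⟨u, hu⟩ : ∃ u : Ω, u * algebraMap K Ω ζ ^ e0.val = bqlP s B p :=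
    ⟨bqlP s B p * (algebraMap K Ω ζ ^ e0.val)⁻¹, by
      rw [mul_assoc, inv_mul_cancel₀ (pow_ne_zero _ hz0), mul_one]⟩
  have hu0 : u ≠ 0 := by
    rintro rfl
    rw [zero_mul] at hu
    exact hC0 hu.symm
  have huV : ∀ σ : V, (σ : Gal(Ω/K)) u = u := by
    intro σ
    have h1 := hCV σ
    rw [← hu, map_mul, map_pow, AlgEquiv.commutes] at h1
    exact mul_right_cancel₀ (pow_ne_zero _ hz0) h1
  obtain ⟨U0, hU0⟩ := IsAlgClosed.exists_pow_nat_eq u hp.pos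
  have hU00 : U0 ≠ 0 := by
    rintro rfl
    rw [zero_pow hp.ne_zero] at hU0
    exact hu0 hU0.symm
  have hCu : bqlP s B p = U0 ^ p * algebraMap K Ω ζ ^ e0.val := by
    rw [hU0, hu]
  -- its Kummer character
  have hroot : ∀ σ : V, ∃ i : ℕ, i < p ∧ algebraMap K Ω ζ ^ i = (σ : Gal(Ω/K)) U0 / U0 := by
    intro σ
    have e1 : ((σ : Gal(Ω/K)) U0 / U0) ^ p = 1 := by
      rw [div_pow, ← map_pow, hU0, huV σ]
      exact div_self hu0
    obtain ⟨i, hi, hi2⟩ := hzp.eq_pow_of_pow_eq_one e1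
    exact ⟨i, hi, hi2⟩
  choose i0 hi0 hi02 using hroot
  have hinj : ∀ a b : ZMod p, algebraMap K Ω ζ ^ a.val = algebraMap K Ω ζ ^ b.val → a = b := by
    intro a b hab
    exact ZMod.val_injective p (hzp.pow_inj (ZMod.val_lt a) (ZMod.val_lt b) hab)
  obtain ⟨q, hq⟩ : ∃ q : V → ZMod p, ∀ σ : V, (σ : Gal(Ω/K)) U0 = algebraMap K Ω ζ ^ (q σ).val * U0 := by
    refine ⟨fun σ => (i0 σ : ZMod p), fun σ => ?_⟩
    simp only
    rw [ZMod.val_cast_of_lt (hi0 σ), hi02, div_mul_cancel₀ _ hU00]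
  have hqm : ∀ σ τ, q (σ * τ) = q σ + q τ := by
    intro σ τ
    apply hinj
    apply mul_right_cancel₀ hU00
    rw [← hq, Subgroup.coe_mul, AlgEquiv.mul_apply, hq τ, map_mul, map_pow, AlgEquiv.commutes, hq σ,
      gkus_pow_add hζ hp]
    ring
  have hq1 : ∀ σ : V, (σ : Gal(Ω/K)) U0 = U0 → q σ = 0 := by
    intro σ h
    apply hinj
    apply mul_right_cancel₀ hU00
    rw [← hq, h, ZMod.val_zero, pow_zero, one_mul]
  obtain ⟨ψ, hψ⟩ : ∃ ψ : V →* Multiplicative (ZMod p), ∀ σ, Multiplicative.toAdd (ψ σ) = q σ :=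
    ⟨{ toFun := fun σ => Multiplicative.ofAdd (q σ)
       map_one' := by rw [hq1 1 rfl]; rfl
       map_mul' := fun σ τ => by rw [hqm]; rfl }, fun σ => rfl⟩
  have hU0i : IsIntegral K U0 := (Algebra.IsAlgebraic.isAlgebraic (R := K) U0).isIntegral
  have hqL : LvV V q := by
    obtain ⟨F, hF, hF2⟩ := lvV_el V hU0i
    refine ⟨F, hF, fun σ u hu => ?_⟩
    apply hinj
    apply mul_right_cancel₀ hU00
    rw [← hq, ← hq]
    exact hF2 σ u hu
  refine ⟨ψ, ⟨IntermediateField.adjoin K {U0}, IntermediateField.adjoin.finiteDimensional hU0i, fun u hu => ?_⟩, ?_⟩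
  · rw [IntermediateField.mem_fixingSubgroup_iff] at hu
    apply Multiplicative.toAdd.injective
    rw [hψ]
    exact hq1 u (hu U0 (IntermediateField.mem_adjoin_simple_self K U0))
  -- the 1-cochain
  have hkL : LvV V (fun σ : V => kk p ζ c (σ : Gal(Ω/K))) := lvV_res V (gtriv_kk hp hζ c)
  obtain ⟨l1, hl1L, hl1'⟩ := bql_tv hp hζ V (fun σ τ : V =>
      (m σ + m τ + X σ τ - m (σ * τ)) - q σ * kk p ζ c (τ : Gal(Ω/K)))
      (fun σ : V => bqlP s B (kk p ζ c (σ : Gal(Ω/K))).val / U0 ^ (kk p ζ c (σ : Gal(Ω/K))).val)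
      (fun σ => div_ne_zero (bql_ne s hB0 _) (pow_ne_zero _ hU00))
      (lvV_pair hkL hkL (fun x _ => bqlP s B x.val / U0 ^ x.val)) (by
    intro σ τ
    obtain ⟨i, γ, hi, hγ, hσ, hiv⟩ := hrep σ
    obtain ⟨j, δ, hj, hδ, hτ, hjv⟩ := hrep τ
    have hkσ : kk p ζ c (σ : Gal(Ω/K)) = (i : ZMod p) := by rw [← hiv, ZMod.natCast_zmod_val]
    have hkτ : kk p ζ c (τ : Gal(Ω/K)) = (j : ZMod p) := by rw [← hjv, ZMod.natCast_zmod_val]
    have hf := hform i j γ δ hi hj hγ hδ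
    rw [← hσ, ← hτ] at hf
    obtain ⟨S, hS⟩ : ∃ S, S = ∑ k ∈ Finset.range j, η ((sV ^ k)⁻¹ * γ * sV ^ k) := ⟨_, rfl⟩
    rw [← hS] at hf
    -- left side
    have hσP : (σ : Gal(Ω/K)) (bqlP s B j) = algebraMap K Ω ζ ^ S.val * (s ^ i) (bqlP s B j) := by
      rw [hσ, Subgroup.coe_mul, AlgEquiv.mul_apply, hact γ hγ j, map_mul, map_pow,
        AlgEquiv.commutes, ← hS, hspow]
    have hσU : (σ : Gal(Ω/K)) (U0 ^ j) = algebraMap K Ω ζ ^ (q σ * j).val * U0 ^ j := by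
      rw [map_pow, hq σ, mul_pow, ← pow_mul, bql_zp hp hζ]
      push_cast
      rw [ZMod.natCast_zmod_val]
    have hlhs : bqlP s B i / U0 ^ i * (σ : Gal(Ω/K)) (bqlP s B j / U0 ^ j) *
        algebraMap K Ω ζ ^ (q σ * j).val =
        algebraMap K Ω ζ ^ S.val * (bqlP s B (i + j) / U0 ^ (i + j)) := by
      rw [map_div₀, hσP, hσU, ← bql_add, pow_add]
      have hz1 : algebraMap K Ω ζ ^ (q σ * j).val ≠ 0 := pow_ne_zero _ hz0
      field_simp
    have hz1 : algebraMap K Ω ζ ^ (q σ * (j : ZMod p)).val ≠ 0 := pow_ne_zero _ hz0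
    have hkστ : kk p ζ c ((σ * τ : V) : Gal(Ω/K)) = ((i + j : ℕ) : ZMod p) := by
      rw [Subgroup.coe_mul, kk_mul, hkσ, hkτ, Nat.cast_add]
    have hmain : ∀ (Y : ZMod p) (r : ℕ), (kk p ζ c ((σ * τ : V) : Gal(Ω/K))).val = r →
        bqlP s B (i + j) / U0 ^ (i + j) =
          algebraMap K Ω ζ ^ Y.val * (bqlP s B r / U0 ^ r) →
        m σ + m τ + X σ τ - m (σ * τ) = S + Y →
        algebraMap K Ω ζ ^ ((m σ + m τ + X σ τ - m (σ * τ)) - q σ * kk p ζ c (τ : Gal(Ω/K))).val *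
          (bqlP s B (kk p ζ c ((σ * τ : V) : Gal(Ω/K))).val / U0 ^ (kk p ζ c ((σ * τ : V) : Gal(Ω/K))).val) =
        bqlP s B (kk p ζ c (σ : Gal(Ω/K))).val / U0 ^ (kk p ζ c (σ : Gal(Ω/K))).val *
          (σ : Gal(Ω/K)) (bqlP s B (kk p ζ c (τ : Gal(Ω/K))).val / U0 ^ (kk p ζ c (τ : Gal(Ω/K))).val) := by
      intro Y r hr h1 h2
      rw [hr, hiv, hjv, h2, hkτ]
      apply mul_right_cancel₀ hz1
      rw [hlhs, h1]
      have h3 : algebraMap K Ω ζ ^ (S + Y - q σ * j).val *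
          algebraMap K Ω ζ ^ (q σ * j).val =
          algebraMap K Ω ζ ^ S.val * algebraMap K Ω ζ ^ Y.val := by
        rw [← gkus_pow_add hζ hp, ← gkus_pow_add hζ hp, sub_add_cancel]
      calc algebraMap K Ω ζ ^ (S + Y - q σ * j).val * (bqlP s B r / U0 ^ r) *
            algebraMap K Ω ζ ^ (q σ * j).val
          = (algebraMap K Ω ζ ^ (S + Y - q σ * j).val *
            algebraMap K Ω ζ ^ (q σ * j).val) * (bqlP s B r / U0 ^ r) := by ring
        _ = algebraMap K Ω ζ ^ S.val * (algebraMap K Ω ζ ^ Y.val * (bqlP s B r / U0 ^ r)) := by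
          rw [h3]; ring
    by_cases hij : p ≤ i + j
    · rw [if_pos hij] at hf
      refine hmain e0 (i + j - p) ?_ ?_ hf
      · rw [hkστ, ZMod.val_natCast]
        rw [Nat.mod_eq_sub_mod hij, Nat.mod_eq_of_lt (by omega)]
      · obtain ⟨r, hr⟩ := Nat.exists_eq_add_of_le hij
        rw [hr, hper, Nat.add_sub_cancel_left, pow_add, hCu]
        have h5 : U0 ^ p ≠ 0 := pow_ne_zero _ hU00
        field_simp
    · rw [if_neg hij, add_zero] at hf
      refine hmain 0 (i + j) ?_ ?_ (by rw [hf, add_zero])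
      · rw [hkστ, ZMod.val_natCast, Nat.mod_eq_of_lt (by omega)]
      · rw [ZMod.val_zero, pow_zero, one_mul])
  have hL : LvV V (fun σ : V => (l1 σ + m σ) + kk p ζ c (σ : Gal(Ω/K)) * q σ) :=
    lvV_pair (lvV_pair hl1L hmLv (fun x y => x + y)) (lvV_pair hkL hqL (fun x y => x * y)) (fun x y => x + y)
  obtain ⟨L, hLL, hLV⟩ := lvV_ext hL
  refine ⟨L, hLL, fun σ τ => ?_⟩
  have h1 := hl1' σ τ
  rw [← Subgroup.coe_mul, hLV, hLV, hLV, Subgroup.coe_mul, kk_mul, hqm, h1, hψ]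
  ring

end H71.FC
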