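import Pool.Agent.H57.RQ.Rec
import Pool.Agent.H63.MC.CLkC
import Pool.Agent.H89.BRG.Nrm

/-!
# [H71 FC] (F) of MP_b39724 (all classes, stage 2): definitions

`p` odd, `K` a number field, `ζ ∈ K` a primitive `p`-th root of unity, `Γ = Gal(Ω/K)`.
* `Lt p ζ v c`: `c` is a `p`-th power locally at `v`. `PW p ζ S c`: at all `v ∈ S`.
* `AbvIn p S`: `S` contains the primes above `p`.
* `TT p ζ S a b`: the sum of the tame symbols of `a`, `b` at the primes outside `S`.
* `Sym P X a b`: `X` is, up to a coboundary on the decomposition group of `P`, the cup product of the Kummer characters of `a`, `b`.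
* `upS L S`: the primes of `L` over `S`.
-/

set_option autoImplicit false

open scoped NumberField
open IsDedekindDomain
open scoped Classical

noncomputable section

namespace H71.FC

open H63.MA H57.RQ

section defs

variable {K : Type} [Field K] [NumberField K]

/-- a `p`-th power locally at `v` -/
def Lt (p : ℕ) (ζ : K) (v : Pl K) (c : Kˣ) : Prop :=
  (Above p v → LocP p v c) ∧ (¬ Above p v → Spl p ζ v c)

/-- a `p`-th power locally at all `v ∈ S` -/
def PW (p : ℕ) (ζ : K) (S : Finset (Pl K)) (c : Kˣ) : Prop := ∀ v ∈ S, Lt p ζ v c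

/-- `S` contains the primes above `p` -/
def AbvIn (p : ℕ) (S : Finset (Pl K)) : Prop := ∀ v, Above p v → v ∈ S

/-- the sum of the tame symbols outside `S` -/
def TT (p : ℕ) (ζ : K) (S : Finset (Pl K)) (a b : Kˣ) : ZMod p :=
  ∑ᶠ v, (if v ∈ S then (0 : ZMod p) else 1) * b1 p ζ v a b

end defs

/-- the primes of `L` over `S` -/
theorem upS_fin {K : Type} [Field K] [NumberField K] (L : Type) [Field L] [NumberField L]
    [Algebra K L] (S : Finset (Pl K)) : {w : Pl L | dnv K w ∈ S}.Finite := by
  have h1 : {w : Pl L | dnv K w ∈ S} ⊆ ⋃ v ∈ S, {w : Pl L | Over w v} := by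
    intro w hw
    simp only [Set.mem_iUnion]
    exact ⟨dnv K w, hw, dnv_over K w⟩
  exact (Set.Finite.biUnion S.finite_toSet fun v _ => over_finite v).subset h1

/-- the primes of `L` over `S` -/
def upS {K : Type} [Field K] [NumberField K] (L : Type) [Field L] [NumberField L]
    [Algebra K L] (S : Finset (Pl K)) : Finset (Pl L) := (upS_fin L S).toFinset

theorem mem_upS {K : Type} [Field K] [NumberField K] {L : Type} [Field L] [NumberField L]
    [Algebra K L] {S : Finset (Pl K)} {w : Pl L} : w ∈ upS L S ↔ dnv K w ∈ S := by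
  unfold upS
  rw [Set.Finite.mem_toFinset]
  exact Iff.rfl

end H71.FC
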