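import Pool.Agent.H71.FC.Tt
import Pool.Agent.H73.FF.Tvn

/-!
# [H71 FC FF] the local norm group

`Prf p`: the pairing `TT S` is nondegenerate and perfect for all number fields with a `p`-th root of unity (proved in `Non`).
`ff`: if `c` is a `p`-th power locally at `S - v` and `TT S c b = 0` then the cup product of `c` and `b` is trivial on the decomposition groups at `v`.
Proof: `L = K(c^(1/p))`. If `b` is not in `N(L^*) PW(S)`, there is a character of `K^*` trivial on this group and not on `b`; it is `TT S a`; `TT (upS L S) a y = 0` for all `y`, so `a` is locally a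
`p`-th power in `L`, so `kk a = m kk c` on `dec P` and `kk a = 0` on the decomposition groups at the other places, `TT S a b = m TT S c b = 0`.
-/

set_option autoImplicit false

open scoped NumberField
open IsDedekindDomain
open scoped Classical

noncomputable section

namespace H71.FC

open H63.MA H57.RQ H89.BRG H57.BRA Pool.Agent.H19.AB H73.FF

/-- the pairing `TT S` is nondegenerate and perfect -/
structure Prf (p : ℕ) : Prop where
  non : ∀ (K : Type) [Field K] [NumberField K] (ζ : K), IsPrimitiveRoot ζ p →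
    ∀ S : Finset (Pl K), AbvIn p S → ∀ a : Kˣ, (∀ b, TT p ζ S a b = 0) → PW p ζ S a
  prf : ∀ (K : Type) [Field K] [NumberField K] (ζ : K), IsPrimitiveRoot ζ p →
    ∀ S : Finset (Pl K), AbvIn p S → ∀ f : Kˣ → ZMod p, (∀ x y, f (x * y) = f x + f y) →
      (∀ s, PW p ζ S s → f s = 0) → ∃ a, ∀ b, f b = TT p ζ S a b

theorem sep_mod {V : Type} [AddCommGroup V] {p : ℕ} [Fact p.Prime] [Module (ZMod p) V]
    {b : V} (hb : b ≠ 0) : ∃ φ : V →+ ZMod p, φ b ≠ 0 := by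
  have h1 : ¬ ∀ φ : Module.Dual (ZMod p) V, φ b = 0 := fun h =>
    hb ((Module.forall_dual_apply_eq_zero_iff (ZMod p) b).1 h)
  push Not at h1
  obtain ⟨φ, hφ⟩ := h1
  exact ⟨φ.toAddMonoidHom, hφ⟩

theorem sep_add {V : Type} [AddCommGroup V] {p : ℕ} (hp : p.Prime) (hV : ∀ x : V, p • x = 0)
    {b : V} (hb : b ≠ 0) : ∃ φ : V →+ ZMod p, φ b ≠ 0 :=
  @sep_mod V _ p ⟨hp⟩ (AddCommGroup.zmodModule hV) b hb

/-- a character separating an element from a subgroup -/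
theorem sep_char {A : Type} [CommGroup A] {p : ℕ} (hp : p.Prime) (N : Subgroup A)
    (hN : ∀ a, a ^ p ∈ N) {b : A} (hb : b ∉ N) :
    ∃ f : A → ZMod p, (∀ x y, f (x * y) = f x + f y) ∧ (∀ x ∈ N, f x = 0) ∧ f b ≠ 0 := by
  have hsm : ∀ x : Additive (A ⧸ N), p • x = 0 := by
    intro x
    obtain ⟨a, ha⟩ := QuotientGroup.mk_surjective (Additive.toMul x)
    have h1 : x = Additive.ofMul (a : A ⧸ N) := by
      rw [ha]
      rfl
    rw [h1, ← ofMul_pow, ← QuotientGroup.mk_pow, (QuotientGroup.eq_one_iff _).2 (hN a)]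
    rfl
  have hb0 : (Additive.ofMul (b : A ⧸ N) : Additive (A ⧸ N)) ≠ 0 := by
    intro h
    apply hb
    exact (QuotientGroup.eq_one_iff _).1 h
  obtain ⟨φ, hφ⟩ := sep_add hp hsm hb0
  refine ⟨fun x => φ (Additive.ofMul (x : A ⧸ N)), fun x y => ?_, fun x hx => ?_, hφ⟩
  · show φ (Additive.ofMul ((x * y : A) : A ⧸ N)) = _
    rw [QuotientGroup.mk_mul, ofMul_mul, map_add]
  · show φ (Additive.ofMul (x : A ⧸ N)) = 0
    rw [(QuotientGroup.eq_one_iff _).2 hx, ofMul_one, map_zero]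

section one

variable {K : Type} [Field K] [NumberField K] {L : Type} [Field L] [NumberField L] [Algebra K L]
  {Ω : Type} [Field Ω] [Algebra K Ω] [Algebra L Ω] [IsScalarTower K L Ω] [IsAlgClosure K Ω]
  {p : ℕ} {ζ : K}

/-- the symbol of a norm is trivial -/
theorem nm_tv (hp : p.Prime) (hζ : IsPrimitiveRoot ζ p) {c : Kˣ} (H : Kum p K ζ c L) (y : Lˣ) :
    Tv (fun σ τ : Gal(Ω/K) => cu p ζ c (Nm K L y) σ τ) := by
  have hclo : IsAlgClosure L Ω := bca_clo K L Ω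
  obtain ⟨s, hs⟩ := kk_one_ex Ω hp hζ (kum_not_pow hp hζ H)
  refine sym1 hp hζ c (Nm K L y) s (algebraMap L Ω (y : L)) hs ?_ (fun u hu => ?_) ?_
  · exact (map_ne_zero_iff _ (algebraMap L Ω).injective).2 y.ne_zero
  · obtain ⟨σ', rfl⟩ := (bca_range hp hζ H u).1 hu
    rw [rsK_apply, AlgEquiv.commutes]
  · exact (nm_sp hp hζ H hs y).symm

omit [NumberField K] [NumberField L] [IsAlgClosure K Ω] in
/-- the decomposition group over `L` -/
theorem dec_rs {P : Ideal (𝓞 Ω)} (σ : Gal(Ω/L)) :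
    σ ∈ dec (K := L) P ↔ rsK K L Ω σ ∈ dec (K := K) P := Iff.rfl

/-- a character which vanishes on the kernel of another one -/
theorem kk_mult (hp : p.Prime) (V : Subgroup Gal(Ω/K)) (a c : Kˣ)
    (h : ∀ σ ∈ V, kk p ζ c σ = 0 → kk p ζ a σ = 0) :
    ∃ m : ZMod p, ∀ σ ∈ V, kk p ζ a σ = m * kk p ζ c σ := by
  have : Fact p.Prime := ⟨hp⟩
  have : NeZero p := ⟨hp.ne_zero⟩
  have hinv : ∀ (a : Kˣ) (σ : Gal(Ω/K)), kk p ζ a σ⁻¹ = -kk p ζ a σ := fun a σ => ck_inv (kk_mul a) σ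
  have hpow : ∀ (a : Kˣ) (σ : Gal(Ω/K)) (n : ℕ), kk p ζ a (σ ^ n) = n * kk p ζ a σ := by
    intro a σ n
    induction n with
    | zero => rw [pow_zero, kk_one, Nat.cast_zero, zero_mul]
    | succ n ih => rw [pow_succ, kk_mul, ih, Nat.cast_succ]; ring
  by_cases hs : ∃ s ∈ V, kk p ζ c s ≠ 0
  · obtain ⟨s, hs, hs1⟩ := hs
    refine ⟨kk p ζ a s * (kk p ζ c s)⁻¹, fun σ hσ => ?_⟩
    obtain ⟨j, hj⟩ : ∃ j : ZMod p, j = kk p ζ c σ * (kk p ζ c s)⁻¹ := ⟨_, rfl⟩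
    have h1 : kk p ζ c (σ * (s ^ j.val)⁻¹) = 0 := by
      rw [kk_mul, hinv, hpow, ZMod.natCast_zmod_val, hj]
      field_simp
      ring
    have h2 := h _ (V.mul_mem hσ (V.inv_mem (V.pow_mem hs _))) h1
    rw [kk_mul, hinv, hpow, ZMod.natCast_zmod_val, hj] at h2
    linear_combination h2
  · push Not at hs
    exact ⟨0, fun σ hσ => by rw [h σ hσ (hs σ hσ), zero_mul]⟩

theorem kl_add {V : Set Gal(Ω/K)} {X Y : Gal(Ω/K) → Gal(Ω/K) → ZMod p} (hX : Kl X V)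
    (hY : Kl Y V) : Kl (fun σ τ => X σ τ + Y σ τ) V := by
  obtain ⟨l, ⟨E, hE, hEl⟩, hl⟩ := hX
  obtain ⟨m, ⟨E', hE', hEm⟩, hm⟩ := hY
  refine ⟨fun σ => l σ + m σ, ⟨E ⊔ E', IntermediateField.finiteDimensional_sup _ _, ?_⟩, ?_⟩
  · intro σ u hu
    have h1 : u ∈ E.fixingSubgroup := IntermediateField.fixingSubgroup_antitone le_sup_left hu
    have h2 : u ∈ E'.fixingSubgroup := IntermediateField.fixingSubgroup_antitone le_sup_right hu
    simp only [hEl σ u h1, hEm σ u h2]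
  · intro σ hσ τ hτ
    have h1 := hl σ hσ τ hτ
    have h2 := hm σ hσ τ hτ
    simp only [h1, h2]
    ring

theorem kl_smul {V : Set Gal(Ω/K)} {X : Gal(Ω/K) → Gal(Ω/K) → ZMod p} (m : ZMod p) (hX : Kl X V) :
    Kl (fun σ τ => m * X σ τ) V := by
  obtain ⟨l, ⟨E, hE, hEl⟩, hl⟩ := hX
  refine ⟨fun σ => m * l σ, ⟨E, hE, fun σ u hu => by simp only [hEl σ u hu]⟩, fun σ hσ τ hτ => ?_⟩
  have h1 := hl σ hσ τ hτ
  simp only [h1]
  ring

theorem tv_kl {V : Set Gal(Ω/K)} {X : Gal(Ω/K) → Gal(Ω/K) → ZMod p} (hX : Tv X) : Kl X V := by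
  obtain ⟨l, hl, h⟩ := hX
  exact ⟨l, hl, fun σ _ τ _ => h σ τ⟩

theorem kl_congr {V : Set Gal(Ω/K)} {X Y : Gal(Ω/K) → Gal(Ω/K) → ZMod p} (hX : Kl X V)
    (h : ∀ σ ∈ V, ∀ τ ∈ V, X σ τ = Y σ τ) : Kl Y V := by
  obtain ⟨l, hl, h1⟩ := hX
  exact ⟨l, hl, fun σ hσ τ hτ => by rw [← h σ hσ τ hτ]; exact h1 σ hσ τ hτ⟩

omit [IsAlgClosure K Ω] in
/-- the prime of `L` under a prime of all integers -/
theorem und_pl {v : Pl K} {P : Ideal (𝓞 Ω)} (hP : P.IsPrime) (hv : P.under (𝓞 K) = v.asIdeal) :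
    ∃ w : Pl L, P.under (𝓞 L) = w.asIdeal ∧ Over w v := by
  have h1 : ∀ x : 𝓞 K, algebraMap (𝓞 K) (𝓞 Ω) x =
      algebraMap (𝓞 L) (𝓞 Ω) (algebraMap (𝓞 K) (𝓞 L) x) := by
    intro x
    apply NumberField.RingOfIntegers.ext
    exact IsScalarTower.algebraMap_apply K L Ω (x : K)
  have h2 : (P.under (𝓞 L)).comap (algebraMap (𝓞 K) (𝓞 L)) = v.asIdeal := by
    rw [← hv]
    ext x
    rw [Ideal.mem_comap, Ideal.under, Ideal.under, Ideal.mem_comap, Ideal.mem_comap, h1]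
  refine ⟨⟨P.under (𝓞 L), Ideal.IsPrime.under (𝓞 L) P, fun h0 => ?_⟩, rfl, h2⟩
  apply v.ne_bot
  rw [← h2, h0]
  have hinj : Function.Injective (algebraMap (𝓞 K) (𝓞 L)) :=
    NumberField.RingOfIntegers.algebraMap.injective K L
  rw [← RingHom.ker_eq_comap_bot, (RingHom.injective_iff_ker_eq_bot _).mp hinj]

/-- if `a` is locally a `p`-th power in `L` at all places over `S` and `c` is locally a `p`-th power at `S - v`, then `a = c ^ m` up to `PW S` -/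
theorem pw_up (hp : p.Prime) (hζ : IsPrimitiveRoot ζ p) {c : Kˣ} (H : Kum p K ζ c L)
    {S : Finset (Pl K)} {v : Pl K} (hv : v ∈ S) (hc : ∀ v' ∈ S, v' ≠ v → Lt p ζ v' c) {a : Kˣ}
    (ha : PW p (algebraMap K L ζ) (upS L S) (inc K L a)) (Ω : Type) [Field Ω] [Algebra K Ω]
    [Algebra L Ω] [IsScalarTower K L Ω] [IsAlgClosure K Ω] :
    ∃ m : ℕ, PW p ζ S (a * (c ^ m)⁻¹) := by
  have : NeZero p := ⟨hp.ne_zero⟩
  have hclo : IsAlgClosure L Ω := bca_clo K L Ω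
  have hζL : IsPrimitiveRoot (algebraMap K L ζ) p := hζ.map_of_injective (algebraMap K L).injective
  obtain ⟨Q⟩ := exists_DP K Ω
  -- `kk a` vanishes on the kernel of `kk c` on the decomposition groups
  have h1 : ∀ v' ∈ S, ∀ σ ∈ dec (K := K) (Q.P v'), kk p ζ c σ = 0 → kk p ζ a σ = 0 := by
    intro v' hv' σ hσ hcσ
    obtain ⟨σ', rfl⟩ := (bca_range hp hζ H σ).1 hcσ
    obtain ⟨w, hw, hwv⟩ := und_pl (K := K) (L := L) (Q.prime v') (Q.under v')
    have h2 : dnv K w = v' := below_unique (dnv_over K w) hwv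
    have h3 := lt_kk hp hζL (ha w (mem_upS.2 (by rw [h2]; exact hv'))) (Q.prime v') hw
      (σ := σ') ((dec_rs (K := K) σ').2 hσ)
    rw [bca_kk hp hζ] at h3
    exact h3
  obtain ⟨m, hm⟩ := kk_mult hp (dec (K := K) (Q.P v)) a c (h1 v hv)
  refine ⟨m.val, fun v' hv' => kk_lt hp hζ (Q.prime v') (Q.under v') fun σ hσ => ?_⟩
  have h2 : kk p ζ (a * (c ^ m.val)⁻¹) σ = kk p ζ a σ - m * kk p ζ c σ := by
    rw [kk_mul_arg hp hζ, ← zpow_natCast, ← zpow_neg, kk_zpow_arg hp hζ]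
    push_cast
    rw [ZMod.natCast_zmod_val]
    ring
  rw [h2]
  by_cases h : v' = v
  · subst h
    rw [hm σ hσ, sub_self]
  · have h3 := lt_kk hp hζ (hc v' hv' h) (Q.prime v') (Q.under v') hσ
    rw [h3, h1 v' hv' σ hσ h3, mul_zero, sub_zero]

end one

/-- the local norm group -/
theorem ff {K : Type} [Field K] [NumberField K] {Ω : Type} [Field Ω] [Algebra K Ω]
    [IsAlgClosure K Ω] {p : ℕ} {ζ : K} (hpf : Prf p) (hp : p.Prime) (hp2 : p ≠ 2)
    (hζ : IsPrimitiveRoot ζ p) {S : Finset (Pl K)} (hS : AbvIn p S) {v : Pl K} (hv : v ∈ S)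
    {c b : Kˣ} (hc : ∀ v' ∈ S, v' ≠ v → Lt p ζ v' c) (h : TT p ζ S c b = 0)
    {P : Ideal (𝓞 Ω)} (hP : P.IsPrime) (hPv : P.under (𝓞 K) = v.asIdeal) :
    Kl (fun σ τ : Gal(Ω/K) => cu p ζ c b σ τ) (dec (K := K) P : Set Gal(Ω/K)) := by
  by_cases hcp : IsPow p c
  · exact kl_zero_left c b fun σ _ => (kk_eq_zero_iff hp hζ c).2 hcp σ
  obtain ⟨L, _, _, _, _, _, ⟨H⟩⟩ := bca_exists Ω hp hζ hcp
  have hclo : IsAlgClosure L Ω := bca_clo K L Ω
  have hζL : IsPrimitiveRoot (algebraMap K L ζ) p := hζ.map_of_injective (algebraMap K L).injective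
  obtain ⟨N, hN⟩ : ∃ N : Subgroup Kˣ, ∀ x, x ∈ N ↔ ∃ y : Lˣ, ∃ s : Kˣ, PW p ζ S s ∧ x = Nm K L y * s := by
    refine ⟨{ carrier := {x | ∃ y : Lˣ, ∃ s : Kˣ, PW p ζ S s ∧ x = Nm K L y * s}
              mul_mem' := ?_
              one_mem' := ⟨1, 1, fun v _ => lt_one hp hζ v, by rw [map_one, mul_one]⟩
              inv_mem' := ?_ }, fun _ => Iff.rfl⟩
    · rintro _ _ ⟨y, s, hs, rfl⟩ ⟨y', s', hs', rfl⟩
      exact ⟨y * y', s * s', pw_mul hp hζ hs hs', by rw [map_mul, mul_mul_mul_comm]⟩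
    · rintro _ ⟨y, s, hs, rfl⟩
      exact ⟨y⁻¹, s⁻¹, pw_inv hp hζ hs, by rw [map_inv, mul_inv]⟩
  have hb : b ∈ N := by
    by_contra hb
    obtain ⟨f, hf, hfN, hfb⟩ := sep_char hp N (fun a => (hN _).2
      ⟨1, a ^ p, fun v _ => lt_pth hp hζ v a, by rw [map_one, one_mul]⟩) hb
    obtain ⟨a, ha⟩ := hpf.prf K ζ hζ S hS f hf (fun s hs => hfN s ((hN s).2
      ⟨1, s, hs, by rw [map_one, one_mul]⟩))
    have h1 : PW p (algebraMap K L ζ) (upS L S) (inc K L a) := by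
      refine hpf.non L (algebraMap K L ζ) hζL (upS L S) (abv_up hS) (inc K L a) fun y => ?_
      rw [← tt_up hp hp2 hζ H S a y, ← ha]
      exact hfN _ ((hN _).2 ⟨y, 1, fun v _ => lt_one hp hζ v, by rw [mul_one]⟩)
    obtain ⟨m, hm⟩ := pw_up hp hζ H hv hc h1 Ω
    apply hfb
    have h2 : a = a * (c ^ m)⁻¹ * c ^ m := by rw [inv_mul_cancel_right]
    rw [ha, h2, tt_mul_left hp hζ, tt_pow_left hp hζ, h, mul_zero, add_zero]
    exact tt_pw_left hp hp2 hζ hS hm b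
  obtain ⟨y, s, hs, rfl⟩ := (hN b).1 hb
  have h1 := kl_add (tv_kl (V := (dec (K := K) P : Set Gal(Ω/K))) (nm_tv (Ω := Ω) hp hζ H y))
    (kl_zero_right (V := (dec (K := K) P : Set Gal(Ω/K))) c s fun σ hσ => lt_kk hp hζ (hs v hv) hP hPv hσ)
  refine kl_congr h1 fun σ _ τ _ => ?_
  simp only [cu]
  rw [kk_mul_arg hp hζ, mul_add]

end H71.FC
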