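import Pool.Agent.H71.FC.Def
import Pool.Agent.H19.AB.Qz
import Pool.Agent.H19.AB.Lif

/-!
# [H71 FC LV] local triviality and the decomposition group

`lt_kk`, `kk_lt`: `c` is a `p`-th power locally at `v` if and only if `kk c = 0` on the decomposition group of a prime `P` over `v`. Consequences for products and powers.
-/

set_option autoImplicit false

open scoped NumberField
open IsDedekindDomain
open scoped Classical

noncomputable section

namespace H71.FC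

open H63.MA H57.RQ Pool.Agent.H19.AB

variable {K : Type} [Field K] [NumberField K] {p : ℕ} {ζ : K}

theorem val_p {v : Pl K} (hv : ¬ Above p v) : v.valuation K (p : K) = 1 := by
  apply le_antisymm
  · have h2 := v.valuation_le_one (K := K) (p : 𝓞 K)
    simpa using h2
  · rw [← not_lt]
    intro h
    exact hv ((above_iff p v).2 h)

theorem lt_loc (hp : p.Prime) (hζ : IsPrimitiveRoot ζ p) (v : Pl K) (c : Kˣ) :
    Lt p ζ v c ↔ LocP p v c := by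
  unfold Lt
  by_cases ha : Above p v
  · exact ⟨fun h => h.1 ha, fun h => ⟨fun _ => h, fun h' => absurd ha h'⟩⟩
  · have h1 : Spl p ζ v c ↔ LocP p v c := by
      rw [spl_iff hp hζ ha]
      unfold LocP One1
      rw [map_pow, val_p ha, one_pow]
    exact ⟨fun h => h1.1 (h.2 ha), fun h => ⟨fun h' => absurd h' ha, fun _ => h1.2 h⟩⟩

theorem lt_near (hp : p.Prime) (hζ : IsPrimitiveRoot ζ p) {v : Pl K} {c : Kˣ}
    (h : v.valuation K ((c : K) - 1) < v.valuation K ((p : K) ^ 2)) : Lt p ζ v c := by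
  rw [lt_loc hp hζ]
  refine ⟨1, ?_⟩
  rw [one_pow, inv_one, mul_one]
  exact h

section om

variable {Ω : Type} [Field Ω] [Algebra K Ω] [IsAlgClosure K Ω]

omit [IsAlgClosure K Ω] in
theorem p_ne {v : Pl K} {P : Ideal (𝓞 Ω)} (h : P.under (𝓞 K) = v.asIdeal) : P ≠ ⊥ := by
  intro h0
  rw [h0] at h
  apply v.ne_bot
  rw [← h]
  have hinj : Function.Injective (algebraMap (𝓞 K) (𝓞 Ω)) :=
    NumberField.RingOfIntegers.algebraMap.injective K Ω
  rw [Ideal.under, ← RingHom.ker_eq_comap_bot, (RingHom.injective_iff_ker_eq_bot _).mp hinj]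

theorem lt_kk (hp : p.Prime) (hζ : IsPrimitiveRoot ζ p) {v : Pl K} {c : Kˣ}
    (hc : Lt p ζ v c) {P : Ideal (𝓞 Ω)} (hP : P.IsPrime) (h : P.under (𝓞 K) = v.asIdeal)
    {σ : Gal(Ω/K)} (hσ : σ ∈ dec (K := K) P) : kk p ζ c σ = 0 := by
  obtain ⟨y, hy⟩ := (lt_loc hp hζ v c).1 hc
  have h1 := cl_of_val v P hP h (c * (y ^ p)⁻¹) hy
  have h2 := cl_kk hp hζ P hP (p_ne h) (c * (y ^ p)⁻¹) h1 σ hσ
  have h3 : c = c * (y ^ p)⁻¹ * y ^ (p : ℤ) := by
    rw [zpow_natCast, inv_mul_cancel_right]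
  rw [h3, kk_mul_arg hp hζ, h2, kk_zpow_arg hp hζ, zero_add, Int.cast_natCast, CharP.cast_eq_zero,
    zero_mul]

/-- a family of primes with a given value at `v` -/
theorem dp_upd (v : Pl K) {P : Ideal (𝓞 Ω)} (hP : P.IsPrime) (h : P.under (𝓞 K) = v.asIdeal) :
    ∃ Q : DP K Ω, Q.P v = P := by
  obtain ⟨Q0⟩ := exists_DP K Ω
  refine ⟨⟨Function.update Q0.P v P, fun w => ?_, fun w => ?_⟩, Function.update_self v P Q0.P⟩
  · by_cases hw : w = v
    · subst hw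
      rw [Function.update_self]
      exact hP
    · rw [Function.update_of_ne hw]
      exact Q0.prime w
  · by_cases hw : w = v
    · subst hw
      rw [Function.update_self]
      exact h
    · rw [Function.update_of_ne hw]
      exact Q0.under w

theorem kk_lt (hp : p.Prime) (hζ : IsPrimitiveRoot ζ p) {v : Pl K} {c : Kˣ}
    {P : Ideal (𝓞 Ω)} (hP : P.IsPrime) (h : P.under (𝓞 K) = v.asIdeal)
    (hk : ∀ σ ∈ dec (K := K) P, kk p ζ c σ = 0) : Lt p ζ v c := by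
  obtain ⟨Q, rfl⟩ := dp_upd v hP h
  obtain ⟨y, hy⟩ := near_root hp hζ {v} Q c (by
    intro w hw
    rw [Finset.mem_singleton] at hw
    subst hw
    exact hk) (pow_ne_zero 2 hp.ne_zero)
  rw [lt_loc hp hζ]
  refine ⟨y, ?_⟩
  have h1 := hy v (Finset.mem_singleton_self v)
  rwa [Nat.cast_pow] at h1

theorem lt_iff_kk (hp : p.Prime) (hζ : IsPrimitiveRoot ζ p) {v : Pl K} {c : Kˣ}
    {P : Ideal (𝓞 Ω)} (hP : P.IsPrime) (h : P.under (𝓞 K) = v.asIdeal) :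
    Lt p ζ v c ↔ ∀ σ ∈ dec (K := K) P, kk p ζ c σ = 0 :=
  ⟨fun hc _ hσ => lt_kk hp hζ hc hP h hσ, fun hk => kk_lt hp hζ hP h hk⟩

end om

theorem lt_mul (hp : p.Prime) (hζ : IsPrimitiveRoot ζ p) {v : Pl K} {c d : Kˣ}
    (hc : Lt p ζ v c) (hd : Lt p ζ v d) : Lt p ζ v (c * d) := by
  obtain ⟨Q⟩ := exists_DP K (AlgebraicClosure K)
  refine kk_lt hp hζ (Q.prime v) (Q.under v) fun σ hσ => ?_
  rw [kk_mul_arg hp hζ, lt_kk hp hζ hc (Q.prime v) (Q.under v) hσ,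
    lt_kk hp hζ hd (Q.prime v) (Q.under v) hσ, add_zero]

theorem lt_zpow (hp : p.Prime) (hζ : IsPrimitiveRoot ζ p) {v : Pl K} {c : Kˣ}
    (hc : Lt p ζ v c) (n : ℤ) : Lt p ζ v (c ^ n) := by
  obtain ⟨Q⟩ := exists_DP K (AlgebraicClosure K)
  refine kk_lt hp hζ (Q.prime v) (Q.under v) fun σ hσ => ?_
  rw [kk_zpow_arg hp hζ, lt_kk hp hζ hc (Q.prime v) (Q.under v) hσ, mul_zero]

theorem lt_pow (hp : p.Prime) (hζ : IsPrimitiveRoot ζ p) {v : Pl K} {c : Kˣ}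
    (hc : Lt p ζ v c) (n : ℕ) : Lt p ζ v (c ^ n) := by
  rw [← zpow_natCast]
  exact lt_zpow hp hζ hc n

theorem lt_inv (hp : p.Prime) (hζ : IsPrimitiveRoot ζ p) {v : Pl K} {c : Kˣ}
    (hc : Lt p ζ v c) : Lt p ζ v c⁻¹ := by
  rw [← zpow_neg_one]
  exact lt_zpow hp hζ hc (-1)

theorem lt_pth (hp : p.Prime) (hζ : IsPrimitiveRoot ζ p) (v : Pl K) (c : Kˣ) :
    Lt p ζ v (c ^ p) := by
  obtain ⟨Q⟩ := exists_DP K (AlgebraicClosure K)
  refine kk_lt hp hζ (Q.prime v) (Q.under v) fun σ hσ => ?_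
  rw [← zpow_natCast, kk_zpow_arg hp hζ, Int.cast_natCast, CharP.cast_eq_zero, zero_mul]

theorem lt_of_isPow (hp : p.Prime) (hζ : IsPrimitiveRoot ζ p) (v : Pl K) {c : Kˣ}
    (hc : IsPow p c) : Lt p ζ v c := by
  obtain ⟨y, rfl⟩ := hc
  exact lt_pth hp hζ v y

theorem lt_one (hp : p.Prime) (hζ : IsPrimitiveRoot ζ p) (v : Pl K) : Lt p ζ v (1 : Kˣ) :=
  lt_of_isPow hp hζ v ⟨1, one_pow p⟩

theorem pw_mul (hp : p.Prime) (hζ : IsPrimitiveRoot ζ p) {S : Finset (Pl K)} {c d : Kˣ}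
    (hc : PW p ζ S c) (hd : PW p ζ S d) : PW p ζ S (c * d) :=
  fun v hv => lt_mul hp hζ (hc v hv) (hd v hv)

theorem pw_zpow (hp : p.Prime) (hζ : IsPrimitiveRoot ζ p) {S : Finset (Pl K)} {c : Kˣ}
    (hc : PW p ζ S c) (n : ℤ) : PW p ζ S (c ^ n) := fun v hv => lt_zpow hp hζ (hc v hv) n

theorem pw_pow (hp : p.Prime) (hζ : IsPrimitiveRoot ζ p) {S : Finset (Pl K)} {c : Kˣ}
    (hc : PW p ζ S c) (n : ℕ) : PW p ζ S (c ^ n) := fun v hv => lt_pow hp hζ (hc v hv) n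

theorem pw_inv (hp : p.Prime) (hζ : IsPrimitiveRoot ζ p) {S : Finset (Pl K)} {c : Kˣ}
    (hc : PW p ζ S c) : PW p ζ S c⁻¹ := fun v hv => lt_inv hp hζ (hc v hv)

theorem pw_mono {S S' : Finset (Pl K)} (h : S ⊆ S') {c : Kˣ} (hc : PW p ζ S' c) : PW p ζ S c :=
  fun v hv => hc v (h hv)

/-- weak approximation of characters by one element -/
theorem approx (hp : p.Prime) (hζ : IsPrimitiveRoot ζ p) (S : Finset (Pl K)) (a : Pl K → Kˣ) :
    ∃ b : Kˣ, ∀ v ∈ S, Lt p ζ v (b * (a v)⁻¹) := by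
  obtain ⟨Q⟩ := exists_DP K (AlgebraicClosure K)
  have hδ : ∀ v, ∃ δ : dec (K := K) (Q.P v) →* Multiplicative (ZMod p),
      δ = (kc p ζ (AlgebraicClosure K) (a v)).comp (dec (K := K) (Q.P v)).subtype := fun v => ⟨_, rfl⟩
  choose δ hδ using hδ
  obtain ⟨b, hb⟩ := lock hp hζ S Q δ (by
    intro v _
    obtain ⟨E, hE, hE2⟩ := kc_ft (Ω := AlgebraicClosure K) hp hζ (a v)
    refine ⟨E, hE, fun u hu => ?_⟩
    rw [hδ, MonoidHom.comp_apply]
    exact MonoidHom.mem_ker.1 (hE2 hu))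
  refine ⟨b, fun v hv => kk_lt hp hζ (Q.prime v) (Q.under v) fun σ hσ => ?_⟩
  have h1 := hb v hv ⟨σ, hσ⟩
  rw [hδ, MonoidHom.comp_apply] at h1
  have h2 : kk p ζ b σ = kk p ζ (a v) σ := h1
  rw [kk_mul_arg hp hζ, ← zpow_neg_one, kk_zpow_arg hp hζ, h2]
  push_cast
  ring

end H71.FC
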