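import Pool.Agent.H71.FC.Lv

/-!
# [H71 FC TT] the sum of the tame symbols outside `S`

`TT S` is bilinear and alternating, vanishes if one argument is a `p`-th power locally at `S` (reciprocity law `ro`), and if the cup product is locally trivial at all `v ∈ S`
(`brg_norm`). `tt_up`: `TT S a (N y) = TT (upS L S) a y` (`nc_b1`).
-/

set_option autoImplicit false

open scoped NumberField
open IsDedekindDomain
open scoped Classical

noncomputable section

namespace H71.FC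

open H63.MA H57.RQ H89.BRG H57.BRA Pool.Agent.H19.AB

variable {K : Type} [Field K] [NumberField K] {p : ℕ} {ζ : K}

theorem tt_fin (hp : p.Prime) (hζ : IsPrimitiveRoot ζ p) (S : Finset (Pl K)) (a b : Kˣ) :
    (Function.support fun v => (if v ∈ S then (0 : ZMod p) else 1) * b1 p ζ v a b).Finite := by
  refine (b1_fin hp hζ a b).subset fun v hv => ?_
  intro h
  apply hv
  show (if v ∈ S then (0 : ZMod p) else 1) * b1 p ζ v a b = 0
  rw [h, mul_zero]

theorem tt_mul_left (hp : p.Prime) (hζ : IsPrimitiveRoot ζ p) (S : Finset (Pl K)) (a a' b : Kˣ) :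
    TT p ζ S (a * a') b = TT p ζ S a b + TT p ζ S a' b := by
  unfold TT
  rw [← finsum_add_distrib (tt_fin hp hζ S a b) (tt_fin hp hζ S a' b)]
  exact finsum_congr fun v => by rw [b1_mul_left hp hζ, mul_add]

theorem tt_mul_right (hp : p.Prime) (hζ : IsPrimitiveRoot ζ p) (S : Finset (Pl K)) (a b b' : Kˣ) :
    TT p ζ S a (b * b') = TT p ζ S a b + TT p ζ S a b' := by
  unfold TT
  rw [← finsum_add_distrib (tt_fin hp hζ S a b) (tt_fin hp hζ S a b')]
  exact finsum_congr fun v => by rw [b1_mul_right hp hζ, mul_add]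

theorem tt_symm (hp : p.Prime) (hζ : IsPrimitiveRoot ζ p) (S : Finset (Pl K)) (a b : Kˣ) :
    TT p ζ S a b = -TT p ζ S b a := by
  unfold TT
  rw [← finsum_neg_distrib]
  exact finsum_congr fun v => by rw [b1_symm hp hζ v a b, mul_neg]

theorem tt_self (hp : p.Prime) (hζ : IsPrimitiveRoot ζ p) (S : Finset (Pl K)) (a : Kˣ) :
    TT p ζ S a a = 0 := by
  unfold TT
  rw [finsum_congr (g := fun _ => (0 : ZMod p)) (fun v => by rw [col_self hp hζ, mul_zero]),
    finsum_zero]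

theorem tt_zpow_left (hp : p.Prime) (hζ : IsPrimitiveRoot ζ p) (S : Finset (Pl K)) (a b : Kˣ)
    (n : ℤ) : TT p ζ S (a ^ n) b = n * TT p ζ S a b := by
  unfold TT
  rw [mul_finsum' _ _ (tt_fin hp hζ S a b)]
  exact finsum_congr fun v => by rw [col_zpow hp hζ]; ring

theorem tt_zpow_right (hp : p.Prime) (hζ : IsPrimitiveRoot ζ p) (S : Finset (Pl K)) (a b : Kˣ)
    (n : ℤ) : TT p ζ S a (b ^ n) = n * TT p ζ S a b := by
  rw [tt_symm hp hζ, tt_zpow_left hp hζ, tt_symm hp hζ S a b]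
  ring

theorem tt_pow_left (hp : p.Prime) (hζ : IsPrimitiveRoot ζ p) (S : Finset (Pl K)) (a b : Kˣ)
    (n : ℕ) : TT p ζ S (a ^ n) b = n * TT p ζ S a b := by
  rw [← zpow_natCast, tt_zpow_left hp hζ, Int.cast_natCast]

theorem tt_pow_right (hp : p.Prime) (hζ : IsPrimitiveRoot ζ p) (S : Finset (Pl K)) (a b : Kˣ)
    (n : ℕ) : TT p ζ S a (b ^ n) = n * TT p ζ S a b := by
  rw [← zpow_natCast, tt_zpow_right hp hζ, Int.cast_natCast]

theorem tt_inv_left (hp : p.Prime) (hζ : IsPrimitiveRoot ζ p) (S : Finset (Pl K)) (a b : Kˣ) :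
    TT p ζ S a⁻¹ b = -TT p ζ S a b := by
  rw [← zpow_neg_one, tt_zpow_left hp hζ]
  push_cast
  ring

theorem tt_inv_right (hp : p.Prime) (hζ : IsPrimitiveRoot ζ p) (S : Finset (Pl K)) (a b : Kˣ) :
    TT p ζ S a b⁻¹ = -TT p ζ S a b := by
  rw [← zpow_neg_one, tt_zpow_right hp hζ]
  push_cast
  ring

theorem pw_pk (hp : p.Prime) (hζ : IsPrimitiveRoot ζ p) {S : Finset (Pl K)} (hS : AbvIn p S)
    {a : Kˣ} (ha : PW p ζ S a) : Pk p 1 a := by
  obtain ⟨Q⟩ := exists_DP K (AlgebraicClosure K)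
  intro v hv n
  obtain ⟨y, hy⟩ := near_root hp hζ S Q a (fun v hv σ hσ =>
    lt_kk hp hζ (ha v hv) (Q.prime v) (Q.under v) hσ) (pow_ne_zero n hp.ne_zero)
  refine ⟨y, ?_⟩
  rw [pow_one]
  have h1 := hy v (hS v hv)
  rwa [Nat.cast_pow] at h1

theorem tt_pw_left (hp : p.Prime) (hp2 : p ≠ 2) (hζ : IsPrimitiveRoot ζ p) {S : Finset (Pl K)}
    (hS : AbvIn p S) {a : Kˣ} (ha : PW p ζ S a) (b : Kˣ) : TT p ζ S a b = 0 := by
  rw [← ro hp hp2 K ζ hζ a (pw_pk hp hζ hS ha) b]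
  unfold TT
  refine finsum_congr fun v => ?_
  by_cases hv : v ∈ S
  · rw [if_pos hv, zero_mul]
    by_cases h : Above p v
    · rw [col_of_above h]
    · rw [col_of_not h]
      exact ((ha v hv).2 h b).symm
  · rw [if_neg hv, one_mul]

theorem tt_pw_right (hp : p.Prime) (hp2 : p ≠ 2) (hζ : IsPrimitiveRoot ζ p) {S : Finset (Pl K)}
    (hS : AbvIn p S) {b : Kˣ} (hb : PW p ζ S b) (a : Kˣ) : TT p ζ S a b = 0 := by
  rw [tt_symm hp hζ, tt_pw_left hp hp2 hζ hS hb, neg_zero]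

/-- locally trivial cup products have sum zero -/
theorem tt_kl (hp : p.Prime) (hp2 : p ≠ 2) (hζ : IsPrimitiveRoot ζ p) {Ω : Type} [Field Ω]
    [Algebra K Ω] [IsAlgClosure K Ω] {S : Finset (Pl K)} (hS : AbvIn p S) (a b : Kˣ)
    (h : ∀ v ∈ S, ∃ P : Ideal (𝓞 Ω), P.IsPrime ∧ P.under (𝓞 K) = v.asIdeal ∧
      Kl (fun σ τ : Gal(Ω/K) => cu p ζ a b σ τ) (Dc K P : Set Gal(Ω/K))) : TT p ζ S a b = 0 := by
  by_cases ha : IsPow p a
  · exact tt_pw_left hp hp2 hζ hS (fun v _ => lt_of_isPow hp hζ v ha) b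
  · obtain ⟨x, -, hx2, hx3⟩ := brg_norm hp (mone_odd hp hp2 K) hζ ha b S h
    have h1 : TT p ζ S a b = TT p ζ S a x := by
      unfold TT
      refine finsum_congr fun v => ?_
      by_cases hv : Above p v
      · rw [col_of_above hv, col_of_above hv]
      · rw [col_of_not hv, col_of_not hv, hx2 v hv]
    rw [h1]
    exact tt_pw_right hp hp2 hζ hS (fun v hv => lt_near hp hζ (hx3 v hv)) a

/-- the trivial cup product -/
theorem kl_zero_left {Ω : Type} [Field Ω] [Algebra K Ω] {V : Set Gal(Ω/K)} (a b : Kˣ)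
    (h : ∀ σ ∈ V, kk p ζ a σ = 0) : Kl (fun σ τ : Gal(Ω/K) => cu p ζ a b σ τ) V := by
  refine ⟨fun _ => 0, ⟨⊥, inferInstance, fun _ _ _ => rfl⟩, fun σ hσ τ _ => ?_⟩
  show (0 : ZMod p) = 0 + 0 + cu p ζ a b σ τ
  rw [cu, h σ hσ, zero_mul, add_zero, add_zero]

theorem kl_zero_right {Ω : Type} [Field Ω] [Algebra K Ω] {V : Set Gal(Ω/K)} (a b : Kˣ)
    (h : ∀ σ ∈ V, kk p ζ b σ = 0) : Kl (fun σ τ : Gal(Ω/K) => cu p ζ a b σ τ) V := by
  refine ⟨fun _ => 0, ⟨⊥, inferInstance, fun _ _ _ => rfl⟩, fun σ _ τ hτ => ?_⟩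
  show (0 : ZMod p) = 0 + 0 + cu p ζ a b σ τ
  rw [cu, h τ hτ, mul_zero, add_zero, add_zero]

/-- the norm compatibility -/
theorem tt_up (hp : p.Prime) (hp2 : p ≠ 2) (hζ : IsPrimitiveRoot ζ p) {L : Type} [Field L]
    [NumberField L] [Algebra K L] {c : Kˣ} (H : Kum p K ζ c L) (S : Finset (Pl K)) (a : Kˣ)
    (y : Lˣ) : TT p ζ S a (Nm K L y) = TT p (algebraMap K L ζ) (upS L S) (inc K L a) y := by
  unfold TT
  rw [nc_b1 hp hp2 hζ H]
  refine finsum_congr fun w => ?_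
  congr 1
  by_cases hw : dnv K w ∈ S
  · rw [if_pos hw, if_pos (mem_upS.2 hw)]
  · rw [if_neg hw, if_neg (fun h => hw (mem_upS.1 h))]

theorem abv_up {L : Type} [Field L] [NumberField L] [Algebra K L] {S : Finset (Pl K)}
    (hS : AbvIn p S) : AbvIn p (upS L S) := by
  intro w hw
  rw [mem_upS]
  exact hS _ ((above_over (dnv_over K w) p).1 hw)

end H71.FC
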